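import Pool.Agent.Lib.MP_c7af3c_ag.T2.H6.Beta2

/-!
# MP_c7af3c_ag, project T2, row BETA: the plane is integrable (helper6)
-/

set_option autoImplicit false

namespace Pool.Agent.T2.H6

open MvPolynomial Module Pool.Agent.Gen Pool.Agent.Sharp Pool.Agent.Edge
open Pool.Agent.Sharp.H75 (DG)

/-- the two other coordinates -/
theorem exists_compl {K : Type} [Field K] {x : Fin (4 + 1) → K} {j0 : Fin (4 + 1)}
    {t : Fin (2 + 1) → Fin (4 + 1)} {P : Fin (2 + 1) → Fin (4 + 1) → K} (ch : Cht x j0 t P) :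
    ∃ s : Fin 2 → Fin (4 + 1), ∀ f, (∃ i, f = t i) ∨ ∃ i, f = s i := by
  classical
  have hinj : Function.Injective t := by
    intro i j hij
    by_contra hne
    have h1 := ch.Pt i i
    rw [hij, ch.Pt i j, if_neg hne, if_pos rfl] at h1
    exact zero_ne_one h1
  have hc : ((Finset.univ.image t)ᶜ : Finset (Fin (4 + 1))).card = 2 := by
    rw [Finset.card_compl, Finset.card_image_of_injective _ hinj]
    simp
  obtain ⟨a, b, -, hab⟩ := Finset.card_eq_two.1 hc
  refine ⟨![a, b], fun f => ?_⟩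
  by_cases hf : f ∈ (Finset.univ.image t)
  · obtain ⟨i, -, hi⟩ := Finset.mem_image.1 hf
    exact Or.inl ⟨i, hi.symm⟩
  · right
    have h1 : f ∈ ((Finset.univ.image t)ᶜ : Finset (Fin (4 + 1))) := Finset.mem_compl.2 hf
    rw [hab, Finset.mem_insert, Finset.mem_singleton] at h1
    rcases h1 with h | h
    · exact ⟨0, h⟩
    · exact ⟨1, h⟩

theorem beta : BetaStatement := by
  intro loc _ Ω _ _ k Γ _ S D x j0 hS w0 ln t P ch van A hA f i
  have hx := hS.hj0
  have hL := fun a ha => hL_of_line hx ch w0 van ln a ha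
  obtain ⟨s, hs⟩ := exists_compl ch
  have hsy : Sy (vv D x j0 t) fun f i f' => bb D t P (s f) i (s f') := by
    intro f f' A A'
    exact sym_bb hS.comm hx ch van (s f) (s f') A A'
  have hfd : FiniteDimensional Ω (Fin (4 + 1) → Ω) := inferInstance
  have hb : ∀ f i f' A, bb D t P (s f) i (s f') A = 0 := by
    rcases beta_alg hsy hL with h | h
    · exact h
    · exact absurd h (no_kron loc hS w0 ch van hL)
  -- the derivative vanishes on the multiples of `lam f`, `f` in the chart
  by_cases hf : ∃ j, f = t j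
  · obtain ⟨j, rfl⟩ := hf
    have h0 : lam t P (t j) = 0 := by
      unfold lam
      rw [Finset.sum_eq_single j]
      · rw [ch.Pt, if_pos rfl, C_1, one_mul, sub_self]
      · intro i _ hij
        rw [ch.Pt, if_neg hij, C_0, zero_mul]
      · intro h; exact absurd (Finset.mem_univ _) h
    rw [h0, mul_zero, map_zero]
  obtain ⟨f', rfl⟩ := (hs f).resolve_left hf
  funext g
  rw [Pi.zero_apply, V_eq_DG]
  set δ := DG D fun _ => A * lam t P (s f') with hδ
  have hδx : ∀ p, δ (x p) = 0 := by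
    intro p
    rw [hδ, ← V_eq_DG, van A hA, Pi.zero_apply]
  by_cases hg : ∃ j, g = t j
  · obtain ⟨j, rfl⟩ := hg
    rw [ch.Pt]
    split_ifs
    · exact δ.map_one_eq_zero
    · exact map_zero δ
  obtain ⟨g', rfl⟩ := (hs g).resolve_left hg
  have h1 : ∀ i : Fin 2, δ (P i.succ (s g')) = 0 := by
    intro i
    rw [hδ, ← V_eq_DG]
    exact hb g' i f' ⟨A, hA⟩
  have h2 : δ (P 1 (s g')) = 0 := h1 0
  have h3 : δ (P 2 (s g')) = 0 := h1 1
  have h4 := rel_frame ch δ hδx (s g')
  rw [Fin.sum_univ_three, ch.t0, hx, mul_one, h2, h3, zero_mul, zero_mul, add_zero,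
    add_zero] at h4
  fin_cases i
  · exact h4
  · exact h2
  · exact h3

end Pool.Agent.T2.H6
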