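import Pool.Agent.Lib.MP_c7af3c_ag.T2.H6.Kron

/-!
# MP_c7af3c_ag, project T2, row BETA: the symmetry, and the consequences of LINE (helper6)
-/

set_option autoImplicit false

namespace Pool.Agent.T2.H6

open MvPolynomial Module Pool.Agent.Gen Pool.Agent.Sharp Pool.Agent.Edge
open Pool.Agent.Sharp.H75 (dco DG dco_mul dco_add dco_sum dco_X dco_C coeff_dco dco_hom)
open Pool.Agent.Sharp.H87 (hh JJ)

variable {K : Type} [Field K] {D : D6 K} {x : Fin (4 + 1) → K} {j0 : Fin (4 + 1)}
  {t : Fin (2 + 1) → Fin (4 + 1)} {P : Fin (2 + 1) → Fin (4 + 1) → K}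

/-! ### LINE -/

/-- all combinations have rank at least two -/
theorem hL_of_line [CharZero K] (hx : x j0 = 1) (ch : Cht x j0 t P) (w0 : W0 D x)
    (van : ∀ A : MvPolynomial (Fin (4 + 1)) K, A.IsHomogeneous 5 → ∀ f,
      D.V x 0 (A * lam t P f) = 0)
    (ln : ∀ y, LinearIndependent K ![x, y] → 3 ≤ finrank K (Lines.E1 D x y))
    (a : Fin 2 → K) (ha : a ≠ 0) :
    2 ≤ finrank K (LinearMap.range (cv (vv D x j0 t) a)) := by
  classical
  set y : Fin (4 + 1) → K := fun f => -a 1 * P 1 f + a 0 * P 2 f with hy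
  have hP : ∀ i j, P i (t j) = if i = j then 1 else 0 := ch.Pt
  have y0 : y j0 = 0 := by
    rw [hy, ← ch.t0]
    simp only [hP]
    simp
  have y1 : y (t 1) = -a 1 := by
    rw [hy]
    simp only [hP]
    simp
  have y2 : y (t 2) = a 0 := by
    rw [hy]
    simp only [hP]
    simp
  obtain ⟨i0, hi0⟩ : ∃ i0, y i0 ≠ 0 := by
    by_contra h
    push Not at h
    apply ha
    funext i
    fin_cases i
    · exact y2.symm.trans (h _)
    · have := h (t 1)
      rw [y1, neg_eq_zero] at this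
      exact this
  have hli : LinearIndependent K ![x, y] := by
    rw [LinearIndependent.pair_iff]
    intro s r hsr
    have h1 := congrFun hsr j0
    simp only [Pi.add_apply, Pi.smul_apply, smul_eq_mul, Pi.zero_apply, hx, y0, mul_one,
      mul_zero, add_zero] at h1
    refine ⟨h1, ?_⟩
    have h2 := congrFun hsr i0
    simp only [Pi.add_apply, Pi.smul_apply, smul_eq_mul, Pi.zero_apply, h1, zero_mul,
      zero_add] at h2
    exact (mul_eq_zero.1 h2).resolve_right hi0
  have h3 := ln y hli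
  have hJ : JJ x y j0 i0 6 ≤ (LinearMap.range (cv (vv D x j0 t) a)).comap (D.V x 0) := by
    unfold JJ
    rw [Submodule.span_le]
    rintro _ ⟨I, hI, k, rfl⟩
    have hX : (monomial I 1 : MvPolynomial (Fin (4 + 1)) K).IsHomogeneous 5 :=
      isHomogeneous_monomial 1 (by omega)
    show D.V x 0 (hh x y j0 i0 k * monomial I 1) ∈ LinearMap.range (cv (vv D x j0 t) a)
    have e1 : hh x y j0 i0 k * monomial I 1 =
        monomial I 1 * lf x j0 k - (y k / y i0) • (monomial I 1 * lf x j0 i0) := by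
      unfold hh
      rw [smul_eq_C_mul]
      ring
    rw [e1, map_sub, map_smul, V_lf hx ch van hX, V_lf hx ch van hX]
    set v0 := D.V x 0 (monomial I 1 * nf x j0 t 0) with hv0
    set v1 := D.V x 0 (monomial I 1 * nf x j0 t 1) with hv1
    set c0 := P 1 k - y k / y i0 * P 1 i0 with hc0
    set c1 := P 2 k - y k / y i0 * P 2 i0 with hc1
    have e2 : P 1 k • v0 + P 2 k • v1 - (y k / y i0) • (P 1 i0 • v0 + P 2 i0 • v1) =
        c0 • v0 + c1 • v1 := by
      rw [hc0, hc1]
      module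
    have e3 : a 0 * c1 = a 1 * c0 := by
      have e4 : -a 1 * P 1 k + a 0 * P 2 k = y k := rfl
      have e5 : -a 1 * P 1 i0 + a 0 * P 2 i0 = y i0 := rfl
      have e6 : y k / y i0 * y i0 = y k := div_mul_cancel₀ _ hi0
      rw [hc0, hc1]
      linear_combination e4 - y k / y i0 * e5 - e6
    rw [e2]
    have hmem : ∀ c : K, c0 = c * a 0 → c1 = c * a 1 →
        c0 • v0 + c1 • v1 ∈ LinearMap.range (cv (vv D x j0 t) a) := by
      intro c h0 h1
      refine ⟨c • ⟨monomial I 1, hX⟩, ?_⟩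
      rw [map_smul, cv_apply, vv_apply, vv_apply, h0, h1]
      rw [smul_add, smul_smul, smul_smul]
    by_cases ha0 : a 0 = 0
    · have ha1 : a 1 ≠ 0 := by
        intro h
        apply ha
        funext i
        fin_cases i
        · exact ha0
        · exact h
      refine hmem (c1 / a 1) ?_ (div_mul_cancel₀ _ ha1).symm
      rw [ha0, zero_mul] at e3
      rw [ha0, mul_zero]
      exact (mul_eq_zero.1 e3.symm).resolve_left ha1
    · refine hmem (c0 / a 0) (div_mul_cancel₀ _ ha0).symm ?_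
      field_simp
      linear_combination e3
  have hE : Lines.E1 D x y ≤ Submodule.span K {x} ⊔ LinearMap.range (cv (vv D x j0 t) a) := by
    unfold Lines.E1
    rw [Submodule.span_le]
    rintro u ((hu | ⟨p, q, rfl⟩) | ⟨G, hG, hG0, rfl⟩)
    · rw [Set.mem_singleton_iff] at hu
      rw [hu]
      exact Submodule.mem_sup_left (Submodule.mem_span_singleton_self x)
    · exact Submodule.mem_sup_left (w0 p q)
    · rw [VT_one]
      refine Submodule.mem_sup_right ?_
      exact hJ (H87.lineI x y j0 i0 (hG 0) (hG0 0))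
  have h4 := h3.trans (Submodule.finrank_mono hE)
  have h6 := Submodule.finrank_add_le_finrank_add_finrank (Submodule.span K {x})
    (LinearMap.range (cv (vv D x j0 t) a))
  have h8 : finrank K (Submodule.span K {x}) ≤ 1 := le_trans (finrank_span_le_card {x}) (by simp)
  omega

/-! ### the symmetry -/

/-- the component of the derivative of the frame -/
noncomputable def bb (D : D6 K) (t : Fin (2 + 1) → Fin (4 + 1))
    (P : Fin (2 + 1) → Fin (4 + 1) → K) (f : Fin (4 + 1)) (i : Fin 2) (f' : Fin (4 + 1)) :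
    homogeneousSubmodule (Fin (4 + 1)) K 5 →ₗ[K] K :=
  (LinearMap.proj f).comp (((D.V (P i.succ) 0).comp (LinearMap.mulRight K (lam t P f'))).comp
    (homogeneousSubmodule (Fin (4 + 1)) K 5).subtype)

theorem bb_apply (f : Fin (4 + 1)) (i : Fin 2) (f' : Fin (4 + 1))
    (A : homogeneousSubmodule (Fin (4 + 1)) K 5) :
    bb D t P f i f' A = D.V (P i.succ) 0 (A.1 * lam t P f') f := rfl

theorem V_eq_DG (z : Fin (4 + 1) → K) (G : MvPolynomial (Fin (4 + 1)) K) (p : Fin (4 + 1)) :
    D.V z 0 G p = DG D (fun _ => G) (z p) := by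
  rw [D.V_apply, H75.DG_apply, Fin.sum_univ_one]

theorem dco_lam (δ : Derivation ℤ K K) (f : Fin (4 + 1)) :
    dco δ (lam t P f) = -∑ i, C (δ (P i f)) * X (t i) := by
  have h1 : lam t P f + ∑ i, C (P i f) * X (t i) = X f := by
    unfold lam
    ring
  have h2 := congrArg (dco δ) h1
  rw [dco_add, dco_X, dco_sum] at h2
  have h3 : ∀ i, dco δ (C (P i f) * X (t i) : MvPolynomial (Fin (4 + 1)) K) =
      C (δ (P i f)) * X (t i) := by
    intro i
    rw [dco_mul, dco_X, dco_C, mul_zero, add_zero]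
  simp only [h3] at h2
  exact eq_neg_of_add_eq_zero_left h2

/-- the derivations which fix `x` : the relation of the derivatives of the frame -/
theorem rel_frame (ch : Cht x j0 t P) (δ : Derivation ℤ K K) (hδ : ∀ p, δ (x p) = 0)
    (f : Fin (4 + 1)) : ∑ i, δ (P i f) * x (t i) = 0 := by
  have h1 := congrArg δ (ch.xP f)
  rw [hδ, map_sum] at h1
  rw [h1]
  refine Finset.sum_congr rfl fun i _ => ?_
  rw [Derivation.leibniz, hδ, smul_zero, zero_add, smul_eq_mul, mul_comm]

theorem dco_lam' (hx : x j0 = 1) (ch : Cht x j0 t P) (δ : Derivation ℤ K K)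
    (hδ : ∀ p, δ (x p) = 0) (f : Fin (4 + 1)) :
    dco δ (lam t P f) = -∑ i : Fin 2, C (δ (P i.succ f)) * nf x j0 t i := by
  rw [dco_lam]
  congr 1
  have h1 := rel_frame ch δ hδ f
  rw [Fin.sum_univ_three, ch.t0, hx, mul_one] at h1
  rw [Fin.sum_univ_three, Fin.sum_univ_two, ch.t0]
  unfold nf lf
  simp only [Fin.succ_zero_eq_one, Fin.succ_one_eq_two]
  have h2 : δ (P 0 f) = -(δ (P 1 f) * x (t 1)) - δ (P 2 f) * x (t 2) := by
    linear_combination h1
  rw [h2]
  simp only [map_sub, map_neg, map_mul]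
  ring

theorem sym_bb (hc : Lines.Comm D) (hx : x j0 = 1) (ch : Cht x j0 t P)
    (van : ∀ A : MvPolynomial (Fin (4 + 1)) K, A.IsHomogeneous 5 → ∀ f,
      D.V x 0 (A * lam t P f) = 0) (f f' : Fin (4 + 1))
    (A A' : homogeneousSubmodule (Fin (4 + 1)) K 5) :
    bb D t P f 0 f' A' • vv D x j0 t 0 A + bb D t P f 1 f' A' • vv D x j0 t 1 A =
      bb D t P f' 0 f A • vv D x j0 t 0 A' + bb D t P f' 1 f A • vv D x j0 t 1 A' := by
  set G : Fin 1 → MvPolynomial (Fin (4 + 1)) K := fun _ => A'.1 * lam t P f' with hG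
  set H : Fin 1 → MvPolynomial (Fin (4 + 1)) K := fun _ => A.1 * lam t P f with hH
  have hGh : H75.Hom (fun _ => 6) G := fun _ => A'.2.mul (lam_hom1 t P f')
  have hHh : H75.Hom (fun _ => 6) H := fun _ => A.2.mul (lam_hom1 t P f)
  have hGx : ∀ p, DG D G (x p) = 0 := by
    intro p
    rw [hG, ← V_eq_DG, van _ A'.2, Pi.zero_apply]
  have hHx : ∀ p, DG D H (x p) = 0 := by
    intro p
    rw [hH, ← V_eq_DG, van _ A.2, Pi.zero_apply]
  have hcm : H75.Comm D := fun m I m' J _ _ f => hc m I m' J f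
  have key : ∀ p, D.V x 0 (dco (DG D G) (A.1 * lam t P f) -
      dco (DG D H) (A'.1 * lam t P f')) p = 0 := by
    intro p
    have h1 := H75.DG_comm (D := D) hcm hGh hHh (x p)
    rw [hGx, hHx, map_zero, map_zero, sub_zero] at h1
    rw [V_eq_DG]
    exact h1.symm
  have h2 : ∀ (δ : Derivation ℤ K K) (hδ : ∀ p, δ (x p) = 0)
      (B : homogeneousSubmodule (Fin (4 + 1)) K 5) (g : Fin (4 + 1)),
      D.V x 0 (dco δ (B.1 * lam t P g)) =
        -(δ (P 1 g) • vv D x j0 t 0 B + δ (P 2 g) • vv D x j0 t 1 B) := by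
    intro δ hδ B g
    rw [dco_mul, map_add, van _ (dco_hom δ B.2), zero_add, dco_lam' hx ch δ hδ,
      Fin.sum_univ_two, vv_apply, vv_apply]
    have e : B.1 * -(C (δ (P (Fin.succ 0) g)) * nf x j0 t 0 +
        C (δ (P (Fin.succ 1) g)) * nf x j0 t 1) =
        -(δ (P 1 g) • (B.1 * nf x j0 t 0) + δ (P 2 g) • (B.1 * nf x j0 t 1)) := by
      rw [smul_eq_C_mul, smul_eq_C_mul]
      simp only [Fin.succ_zero_eq_one, Fin.succ_one_eq_two]
      ring
    rw [e, map_neg, map_add, map_smul, map_smul]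
  have h3 : D.V x 0 (dco (DG D G) (A.1 * lam t P f)) =
      D.V x 0 (dco (DG D H) (A'.1 * lam t P f')) := by
    rw [← sub_eq_zero, ← map_sub]
    funext p
    exact key p
  rw [h2 _ hGx, h2 _ hHx, neg_inj] at h3
  rw [bb_apply, bb_apply, bb_apply, bb_apply, V_eq_DG, V_eq_DG, V_eq_DG, V_eq_DG]
  exact h3

end Pool.Agent.T2.H6
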