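import Pool.Agent.Lib.MP_c7af3c_ag.T2.H6.Beta1
import Pool.Agent.Lib.MP_c7af3c_ag.T2.Iface
import Pool.Agent.Lib.MP_c7af3c_ag.T2.H54.Basic

/-!
# MP_c7af3c_ag, project T2, row BETA: sizes in the degenerate case (helper6)
-/

set_option autoImplicit false

namespace Pool.Agent.T2.H6

open MvPolynomial Module Pool.Agent.Gen Pool.Agent.Sharp Pool.Agent.Edge

variable {K : Type} [Field K] {D : D6 K} {x : Fin (4 + 1) → K} {j0 : Fin (4 + 1)}
  {t : Fin (2 + 1) → Fin (4 + 1)} {P : Fin (2 + 1) → Fin (4 + 1) → K}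

/-! ### the determinant -/

/-- the determinant and linear combinations of the columns -/
theorem dt_comb (ε : (Unit ⊕ (Fin 0 ⊕ Fin 3)) ⊕ Fin 1 ≃ Fin (4 + 1))
    (η : Fin 0 → Fin (4 + 1) → K) (u w : Fin 3 → Fin (4 + 1) → K) (T : Matrix (Fin 3) (Fin 3) K)
    (h : ∀ b, w b = ∑ c, T b c • u c) : dt D x j0 ε η w = T.det * dt D x j0 ε η u := by
  classical
  set T' : Matrix ((Unit ⊕ (Fin 0 ⊕ Fin 3)) ⊕ Fin 1) ((Unit ⊕ (Fin 0 ⊕ Fin 3)) ⊕ Fin 1) K :=
    Matrix.fromBlocks (Matrix.fromBlocks 1 0 0 (Matrix.fromBlocks 1 0 0 T.transpose)) 0 0 1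
    with hT'
  have hdet : T'.det = T.det := by
    rw [hT', Matrix.det_fromBlocks_zero₂₁, Matrix.det_fromBlocks_zero₂₁,
      Matrix.det_fromBlocks_zero₂₁, Matrix.det_one, Matrix.det_one, Matrix.det_one,
      Matrix.det_transpose]
    ring
  unfold dt
  rw [← hdet, mul_comm, ← Matrix.det_mul]
  congr 1
  ext a k
  rw [Matrix.mul_apply, Matrix.of_apply]
  rcases k with (k | (k | k)) | k
  · simp [hT', Fintype.sum_sum_type, colU]
  · exact k.elim0
  · simp [hT', Fintype.sum_sum_type, colU, h k, mul_comm]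
  · obtain rfl : k = 0 := Subsingleton.elim k 0
    simp [hT', Fintype.sum_sum_type, colU]

theorem det_sq (c0 c1 d0 d1 β : K) :
    (!![β * (c0 * c0), β * (c0 * c1 + c1 * c0), β * (c1 * c1);
      β * (c0 * d0), β * (c0 * d1 + c1 * d0), β * (c1 * d1);
      β * (d0 * d0), β * (d0 * d1 + d1 * d0), β * (d1 * d1)] : Matrix (Fin 3) (Fin 3) K).det =
      β ^ 3 * (c0 * d1 - c1 * d0) ^ 3 := by
  rw [Matrix.det_fin_three]
  simp
  ring

/-! ### the forms with small coefficients -/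

/-- the linear form `X_a - (x_a / x_b) X_b` -/
noncomputable def mf (x : Fin (4 + 1) → K) (b a : Fin (4 + 1)) : MvPolynomial (Fin (4 + 1)) K :=
  X a - C (x a / x b) * X b

/-- its components at `nf_0`, `nf_1` -/
def cc (x : Fin (4 + 1) → K) (P : Fin (2 + 1) → Fin (4 + 1) → K) (b a : Fin (4 + 1))
    (i : Fin 2) : K := P i.succ a - x a / x b * P i.succ b

theorem mf_hom1 (b a : Fin (4 + 1)) : (mf x b a).IsHomogeneous 1 := by
  unfold mf
  have h := (isHomogeneous_C (Fin (4 + 1)) (x a / x b)).mul (isHomogeneous_X K b)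
  rw [zero_add] at h
  exact (isHomogeneous_X K a).sub h

theorem V_mf (hx : x j0 = 1) (ch : Cht x j0 t P)
    (van : ∀ A : MvPolynomial (Fin (4 + 1)) K, A.IsHomogeneous 5 → ∀ f,
      D.V x 0 (A * lam t P f) = 0)
    {A : MvPolynomial (Fin (4 + 1)) K} (hA : A.IsHomogeneous 5) {b : Fin (4 + 1)}
    (hb : x b ≠ 0) (a : Fin (4 + 1)) :
    D.V x 0 (A * mf x b a) = cc x P b a 0 • D.V x 0 (A * nf x j0 t 0) +
      cc x P b a 1 • D.V x 0 (A * nf x j0 t 1) := by
  have e : A * mf x b a = A * lf x j0 a - (x a / x b) • (A * lf x j0 b) := by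
    have h1 : (C (x a) : MvPolynomial (Fin (4 + 1)) K) = C (x a / x b) * C (x b) := by
      rw [← map_mul, div_mul_cancel₀ _ hb]
    unfold mf lf
    rw [smul_eq_C_mul, h1]
    ring
  rw [e, map_sub, map_smul, V_lf hx ch van hA, V_lf hx ch van hA]
  unfold cc
  simp only [Fin.succ_zero_eq_one, Fin.succ_one_eq_two]
  module

theorem V_mf2 (hx : x j0 = 1) (ch : Cht x j0 t P)
    (van : ∀ A : MvPolynomial (Fin (4 + 1)) K, A.IsHomogeneous 5 → ∀ f,
      D.V x 0 (A * lam t P f) = 0)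
    {u : Fin 2 → Fin 2 → Fin (4 + 1) → K}
    (hu : ∀ i j (B : MvPolynomial (Fin (4 + 1)) K), B.IsHomogeneous 4 →
        D.V x 0 (B * nf x j0 t j * nf x j0 t i) = eval x B • u i j)
    (hs : u 1 0 = u 0 1)
    {B : MvPolynomial (Fin (4 + 1)) K} (hB : B.IsHomogeneous 4) {b : Fin (4 + 1)}
    (hb : x b ≠ 0) (a a' : Fin (4 + 1)) :
    D.V x 0 (B * mf x b a * mf x b a') =
      (eval x B * (cc x P b a 0 * cc x P b a' 0)) • u 0 0 +
      (eval x B * (cc x P b a 0 * cc x P b a' 1 + cc x P b a 1 * cc x P b a' 0)) • u 0 1 +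
      (eval x B * (cc x P b a 1 * cc x P b a' 1)) • u 1 1 := by
  rw [V_mf hx ch van (hB.mul (mf_hom1 b a)) hb]
  have h1 : ∀ i, D.V x 0 (B * mf x b a * nf x j0 t i) =
      cc x P b a 0 • (eval x B • u 0 i) + cc x P b a 1 • (eval x B • u 1 i) := by
    intro i
    have e : B * mf x b a * nf x j0 t i = (B * nf x j0 t i) * mf x b a := by ring
    rw [e, V_mf hx ch van (hB.mul (show (nf x j0 t i).IsHomogeneous 1 from lf_hom1 x j0 _)) hb,
      hu 0 i B hB, hu 1 i B hB]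
  rw [h1, h1, hs]
  module

theorem cc_det (hx : x j0 = 1) (ch : Cht x j0 t P) {b : Fin (4 + 1)} (hb : x b ≠ 0) :
    (cc x P b (t 1) 0 * cc x P b (t 2) 1 - cc x P b (t 1) 1 * cc x P b (t 2) 0) -
      x (t 2) * (cc x P b (t 1) 0 * cc x P b j0 1 - cc x P b (t 1) 1 * cc x P b j0 0) -
      x (t 1) * (cc x P b j0 0 * cc x P b (t 2) 1 - cc x P b j0 1 * cc x P b (t 2) 0) = 1 := by
  have hP : ∀ i j, P i (t j) = if i = j then 1 else 0 := ch.Pt
  have h0 : ∀ i, P i j0 = if i = 0 then 1 else 0 := by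
    intro i
    rw [← ch.t0]
    exact hP i 0
  unfold cc
  simp only [Fin.succ_zero_eq_one, Fin.succ_one_eq_two, hP, h0, hx]
  have e1 : (1 : Fin 3) ≠ 2 := by decide
  have e2 : (2 : Fin 3) ≠ 1 := by decide
  have e3 : (1 : Fin 3) ≠ 0 := by decide
  have e4 : (2 : Fin 3) ≠ 0 := by decide
  simp only [e1, e2, e3, e4, if_true, if_false]
  field_simp
  ring

/-! ### the determinant is not zero -/

theorem dt_ne (hx : x j0 = 1) (h0 : eval x (D.F 0) = 0)
    (ε : (Unit ⊕ (Fin 0 ⊕ Fin 3)) ⊕ Fin 1 ≃ Fin (4 + 1)) (η : Fin 0 → Fin (4 + 1) → K)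
    (u : Fin 3 → Fin (4 + 1) → K) (hu : LinearIndependent K u)
    (hj : ∀ b, u b j0 = 0) (hg : ∀ b, ∑ p, eval x (pderiv p (D.F 0)) * u b p = 0) :
    dt D x j0 ε η u ≠ 0 := by
  classical
  intro hdt
  unfold dt at hdt
  obtain ⟨c, hc0, hc⟩ := Matrix.exists_mulVec_eq_zero_iff.2 hdt
  have hrel : ∀ p, c (Sum.inl (Sum.inl ())) * x p +
      ∑ b, c (Sum.inl (Sum.inr (Sum.inr b))) * u b p +
        c (Sum.inr 0) * D.V x 0 (X j0 ^ 6) p = 0 := by
    intro p
    have h1 := congrFun hc (ε.symm p)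
    rw [Matrix.mulVec, dotProduct] at h1
    simp only [Matrix.of_apply, Equiv.apply_symm_apply, Pi.zero_apply, Fintype.sum_sum_type,
      Finset.univ_unique, Finset.sum_singleton, colU, Sum.elim_inl, Sum.elim_inr] at h1
    rw [Finset.univ_eq_empty, Finset.sum_empty, zero_add] at h1
    rw [← h1]
    have e : (default : Fin 1) = 0 := rfl
    rw [e]
    simp only [mul_comm]
  have hF : ∀ m : Fin 1, eval x (D.F m) = 0 := by
    intro m
    obtain rfl : m = 0 := Subsingleton.elim m 0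
    exact h0
  have hgx := Sharp.grad_x D x hF 0
  have hgV := Sharp.grad_VT D x hF (fun _ => X j0 ^ 6) (fun _ => isHomogeneous_X_pow j0 6) 0
  have e6 : eval x (X j0 ^ 6 : MvPolynomial (Fin (4 + 1)) K) = 1 := by
    rw [map_pow, eval_X, hx, one_pow]
  rw [VT_one, e6] at hgV
  have hc2 : c (Sum.inr 0) = 0 := by
    have h1 : ∑ p, eval x (pderiv p (D.F 0)) * (c (Sum.inl (Sum.inl ())) * x p +
      ∑ b, c (Sum.inl (Sum.inr (Sum.inr b))) * u b p +
        c (Sum.inr 0) * D.V x 0 (X j0 ^ 6) p) = 0 :=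
      Finset.sum_eq_zero fun p _ => by rw [hrel, mul_zero]
    have h2 : ∑ p, eval x (pderiv p (D.F 0)) * (c (Sum.inl (Sum.inl ())) * x p +
      ∑ b, c (Sum.inl (Sum.inr (Sum.inr b))) * u b p +
        c (Sum.inr 0) * D.V x 0 (X j0 ^ 6) p) =
        c (Sum.inl (Sum.inl ())) * ∑ p, eval x (pderiv p (D.F 0)) * x p +
        ∑ b, c (Sum.inl (Sum.inr (Sum.inr b))) * ∑ p, eval x (pderiv p (D.F 0)) * u b p +
        c (Sum.inr 0) * ∑ p, eval x (pderiv p (D.F 0)) * D.V x 0 (X j0 ^ 6) p := by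
      simp only [mul_add, Finset.sum_add_distrib, Finset.mul_sum]
      rw [Finset.sum_comm (s := Finset.univ) (t := Finset.univ)]
      congr 1
      · congr 1
        · exact Finset.sum_congr rfl fun p _ => by ring
        · exact Finset.sum_congr rfl fun b _ => Finset.sum_congr rfl fun p _ => by ring
      · exact Finset.sum_congr rfl fun p _ => by ring
    rw [h1, hgx, mul_zero, zero_add, hgV] at h2
    rw [Finset.sum_eq_zero fun b _ => by rw [hg b, mul_zero], zero_add] at h2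
    have h3 : c (Sum.inr 0) = 0 := by linear_combination h2
    exact h3
  have hc1 : c (Sum.inl (Sum.inl ())) = 0 := by
    have h1 := hrel j0
    rw [hx, V_j0 hx, hc2, mul_zero, add_zero, mul_one,
      Finset.sum_eq_zero fun b _ => by rw [hj b, mul_zero], add_zero] at h1
    exact h1
  have hc3 : ∀ b, c (Sum.inl (Sum.inr (Sum.inr b))) = 0 := by
    refine Fintype.linearIndependent_iff.1 hu (fun b => c (Sum.inl (Sum.inr (Sum.inr b)))) ?_
    funext p
    have h1 := hrel p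
    rw [hc1, hc2, zero_mul, zero_add, zero_mul, add_zero] at h1
    rw [Finset.sum_apply, Pi.zero_apply, ← h1]
    exact Finset.sum_congr rfl fun b _ => rfl
  apply hc0
  funext k
  rcases k with (k | (k | k)) | k
  · exact hc1
  · exact k.elim0
  · exact hc3 k
  · obtain rfl : k = 0 := Subsingleton.elim k 0
    exact hc2

/-! ### sizes -/

section sizes

variable {Γ : Type} [LinearOrderedCommGroupWithZero Γ]

theorem CB_mf (v : Valuation K Γ) {b : Fin (4 + 1)} (hb : x b ≠ 0)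
    (hle : ∀ j, v (x j) ≤ v (x b)) (a : Fin (4 + 1)) : T2.G.CB v (mf x b a) 1 := by
  unfold mf
  refine (T2.G.CB_X v a).sub v ((T2.G.CB_CX v _ b).mono v ?_)
  rw [map_div₀]
  have h0 : v (x b) ≠ 0 := (map_ne_zero v).2 hb
  exact (div_le_one₀ (zero_lt_iff.2 h0)).2 (hle a)

theorem CB_pow (v : Valuation K Γ) (b : Fin (4 + 1)) (n : ℕ) :
    T2.G.CB v (X b ^ n : MvPolynomial (Fin (4 + 1)) K) 1 := by
  induction n with
  | zero =>
    intro I
    classical
    rw [pow_zero, coeff_one]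
    split_ifs
    · rw [map_one]
    · rw [map_zero]; exact zero_le
  | succ n ih =>
    rw [pow_succ]
    have h := ih.mul v (T2.G.CB_X v b)
    rwa [one_mul] at h

/-- the size of the determinant, for one pair of forms -/
theorem size_pair (loc : LocStatement) (hx : x j0 = 1) (h0 : eval x (D.F 0) = 0)
    (ch : Cht x j0 t P)
    (van : ∀ A : MvPolynomial (Fin (4 + 1)) K, A.IsHomogeneous 5 → ∀ f,
      D.V x 0 (A * lam t P f) = 0)
    {u : Fin 2 → Fin 2 → Fin (4 + 1) → K}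
    (hu : ∀ i j (B : MvPolynomial (Fin (4 + 1)) K), B.IsHomogeneous 4 →
        D.V x 0 (B * nf x j0 t j * nf x j0 t i) = eval x B • u i j)
    (hs : u 1 0 = u 0 1) (ε : (Unit ⊕ (Fin 0 ⊕ Fin 3)) ⊕ Fin 1 ≃ Fin (4 + 1))
    (η : Fin 0 → Fin (4 + 1) → K) (v : Valuation K Γ) (M : Γ) (hM : 1 ≤ M)
    (hdel : ∀ (m : Fin 1) (I : Fin (4 + 1) →₀ ℕ), I.degree = 6 → ∀ f, v f ≤ 1 →
      v (D.del m I f) ≤ M)
    {b : Fin (4 + 1)} (hb : x b ≠ 0) (hle : ∀ j, v (x j) ≤ v (x b)) (a a' : Fin (4 + 1)) :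
    v (dt D x j0 ε η ![u 0 0, u 0 1, u 1 1]) *
      v (cc x P b a 0 * cc x P b a' 1 - cc x P b a 1 * cc x P b a' 0) ^ 3 * v (x b) ^ 13 ≤
      M ^ 4 := by
  have hB : (X b ^ 4 : MvPolynomial (Fin (4 + 1)) K).IsHomogeneous 4 := isHomogeneous_X_pow b 4
  have hBx : eval x (X b ^ 4 : MvPolynomial (Fin (4 + 1)) K) = x b ^ 4 := by
    rw [map_pow, eval_X]
  let g : Fin 3 → MvPolynomial (Fin (4 + 1)) K := ![X b ^ 4 * mf x b a * mf x b a,
    X b ^ 4 * mf x b a * mf x b a', X b ^ 4 * mf x b a' * mf x b a']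
  let w : Fin 3 → Fin (4 + 1) → K := fun c => D.V x 0 (g c)
  have hg6 : ∀ c, (g c).IsHomogeneous 6 := by
    intro c
    fin_cases c
    · exact (hB.mul (mf_hom1 b a)).mul (mf_hom1 b a)
    · exact (hB.mul (mf_hom1 b a)).mul (mf_hom1 b a')
    · exact (hB.mul (mf_hom1 b a')).mul (mf_hom1 b a')
  have hmf : ∀ a, eval x (mf x b a) = 0 := by
    intro a
    unfold mf
    rw [map_sub, map_mul, eval_X, eval_X, eval_C, div_mul_cancel₀ _ hb, sub_self]
  have hg0 : ∀ c, eval x (g c) = 0 := by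
    intro c
    fin_cases c
    · show eval x (X b ^ 4 * mf x b a * mf x b a) = 0
      rw [map_mul, hmf, mul_zero]
    · show eval x (X b ^ 4 * mf x b a * mf x b a') = 0
      rw [map_mul, hmf, mul_zero]
    · show eval x (X b ^ 4 * mf x b a' * mf x b a') = 0
      rw [map_mul, hmf, mul_zero]
  have hgc : ∀ c, T2.G.CB v (g c) 1 := by
    have key : ∀ a a', T2.G.CB v (X b ^ 4 * mf x b a * mf x b a') 1 := by
      intro a a'
      have h := ((CB_pow v b 4).mul v (CB_mf v hb hle a)).mul v (CB_mf v hb hle a')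
      rwa [one_mul, one_mul] at h
    intro c
    fin_cases c
    · exact key a a
    · exact key a a'
    · exact key a' a'
  have hw : dt D x j0 ε η w = (x b ^ 4) ^ 3 *
      (cc x P b a 0 * cc x P b a' 1 - cc x P b a 1 * cc x P b a' 0) ^ 3 *
      dt D x j0 ε η ![u 0 0, u 0 1, u 1 1] := by
    rw [← det_sq]
    refine dt_comb ε η _ w _ ?_
    intro c
    fin_cases c
    · show D.V x 0 (X b ^ 4 * mf x b a * mf x b a) = _
      rw [V_mf2 hx ch van hu hs hB hb, hBx, Fin.sum_univ_three]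
      rfl
    · show D.V x 0 (X b ^ 4 * mf x b a * mf x b a') = _
      rw [V_mf2 hx ch van hu hs hB hb, hBx, Fin.sum_univ_three]
      rfl
    · show D.V x 0 (X b ^ 4 * mf x b a' * mf x b a') = _
      rw [V_mf2 hx ch van hu hs hB hb, hBx, Fin.sum_univ_three]
      rfl
  have hF : ∀ m : Fin 1, eval x (D.F m) = 0 := by
    intro m
    obtain rfl : m = 0 := Subsingleton.elim m 0
    exact h0
  have h1 := loc K Γ D x j0 hx h0 v M hM (fun I hI f hf => hdel 0 I hI f hf) 0 3 ε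
    (fun _ => 0) (Sum.elim (fun c => c.elim0) g) (fun _ => 1) η w ?_ ?_ ?_ ?_ ?_ b
  · rw [Finset.prod_const_one, mul_one, hw, map_mul, map_mul, map_pow, map_pow, map_pow] at h1
    refine le_trans (le_of_eq ?_) h1
    have e : v (x b) ^ 13 = (v (x b) ^ 4) ^ 3 * v (x b) := by
      rw [← pow_mul, ← pow_succ]
    rw [e]
    ac_rfl
  · rintro (c | c)
    · exact c.elim0
    · exact hg6 c
  · intro c p q
    show v (0 : K) ≤ 1
    rw [map_zero]
    exact zero_le
  · rintro (c | c) I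
    · exact c.elim0
    · exact hgc c I
  · rintro (c | c)
    · exact c.elim0
    · show w c = _
      rw [Matrix.zero_mulVec, zero_add]
      rfl
  · rintro (c | c)
    · exact c.elim0
    · have h2 := Sharp.grad_VT D x hF (fun _ => g c) (fun _ => hg6 c) 0
      rw [VT_one, hg0 c, neg_zero] at h2
      exact h2

/-- the size of the determinant -/
theorem size_dt (loc : LocStatement) {k : Subfield K} {S : Sizes K k Γ} (hS : Sit S D x j0)
    (ch : Cht x j0 t P)
    (van : ∀ A : MvPolynomial (Fin (4 + 1)) K, A.IsHomogeneous 5 → ∀ f,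
      D.V x 0 (A * lam t P f) = 0)
    {u : Fin 2 → Fin 2 → Fin (4 + 1) → K}
    (hu : ∀ i j (B : MvPolynomial (Fin (4 + 1)) K), B.IsHomogeneous 4 →
        D.V x 0 (B * nf x j0 t j * nf x j0 t i) = eval x B • u i j)
    (hs : u 1 0 = u 0 1) (ε : (Unit ⊕ (Fin 0 ⊕ Fin 3)) ⊕ Fin 1 ≃ Fin (4 + 1))
    (η : Fin 0 → Fin (4 + 1) → K) (p : S.V) :
    S.v p (dt D x j0 ε η ![u 0 0, u 0 1, u 1 1]) * S.nm x p ≤ S.M p ^ 4 := by
  obtain ⟨b, hnm, hle⟩ := S.exists_nm x p
  have hx := hS.hj0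
  have hX1 : 1 ≤ S.v p (x b) := by
    have := hle j0
    rwa [hx, map_one] at this
  have hb : x b ≠ 0 := by
    intro h
    rw [h, map_zero] at hX1
    exact absurd hX1 (not_le.2 zero_lt_one)
  set v := S.v p with hv
  set Y := v (x b) with hY
  have key := size_pair loc hx (hS.h0 0) ch van hu hs ε η v (S.M p) (S.one_le p)
    (fun m I hI f hf => hS.hdel p m I hI f hf) hb hle
  -- a pair with a large determinant
  have hex : ∃ a a', 1 ≤ Y * v (cc x P b a 0 * cc x P b a' 1 - cc x P b a 1 * cc x P b a' 0) := by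
    by_contra hcon
    push Not at hcon
    have h1 := cc_det hx ch hb
    have h2 : v 1 < 1 := by
      rw [← h1]
      have hle' : ∀ z : K, v z ≤ Y * v z := by
        intro z
        calc v z = 1 * v z := (one_mul _).symm
          _ ≤ Y * v z := mul_le_mul' hX1 le_rfl
      refine (v.map_sub _ _).trans_lt (max_lt ((v.map_sub _ _).trans_lt (max_lt ?_ ?_)) ?_)
      · exact (hle' _).trans_lt (hcon _ _)
      · rw [map_mul]
        exact (mul_le_mul' (hle _) le_rfl).trans_lt (hcon _ _)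
      · rw [map_mul]
        exact (mul_le_mul' (hle _) le_rfl).trans_lt (hcon _ _)
    rw [map_one] at h2
    exact lt_irrefl _ h2
  obtain ⟨a, a', haa⟩ := hex
  set δ := v (cc x P b a 0 * cc x P b a' 1 - cc x P b a 1 * cc x P b a' 0) with hδ
  set Z := v (dt D x j0 ε η ![u 0 0, u 0 1, u 1 1]) with hZ
  rw [hnm]
  have h3 := key a a'
  refine le_trans ?_ h3
  calc Z * Y = Z * Y * 1 * 1 := by rw [mul_one, mul_one]
    _ ≤ Z * Y * Y ^ 9 * (Y * δ) ^ 3 :=
      mul_le_mul' (mul_le_mul' le_rfl (one_le_pow₀ hX1)) (one_le_pow₀ haa)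
    _ = Z * δ ^ 3 * Y ^ 13 := by
      have e : Y ^ 13 = Y * Y ^ 9 * Y ^ 3 := by
        rw [← pow_succ', ← pow_add]
      rw [mul_pow, e]
      generalize Y ^ 9 = y9
      generalize Y ^ 3 = y3
      generalize δ ^ 3 = d3
      ac_rfl

end sizes

/-- There is no degenerate pencil. -/
theorem no_kron [CharZero K] (loc : LocStatement) {Γ : Type} [LinearOrderedCommGroupWithZero Γ]
    {k : Subfield K} {S : Sizes K k Γ} (hS : Sit S D x j0) (w0 : W0 D x) (ch : Cht x j0 t P)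
    (van : ∀ A : MvPolynomial (Fin (4 + 1)) K, A.IsHomogeneous 5 → ∀ f,
      D.V x 0 (A * lam t P f) = 0)
    (hL : ∀ a : Fin 2 → K, a ≠ 0 → 2 ≤ finrank K (LinearMap.range (cv (vv D x j0 t) a))) :
    ¬ finrank K (LinearMap.range ((vv D x j0 t 0).prod (vv D x j0 t 1))) ≤ 2 := by
  intro hW
  have hx := hS.hj0
  obtain ⟨u, hli, hu⟩ := kron hx ch w0 van hL hW
  have hB : (X j0 ^ 4 : MvPolynomial (Fin (4 + 1)) K).IsHomogeneous 4 := isHomogeneous_X_pow j0 4
  have hBx : eval x (X j0 ^ 4 : MvPolynomial (Fin (4 + 1)) K) = 1 := by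
    rw [map_pow, eval_X, hx, one_pow]
  have hu' : ∀ i j, u i j = D.V x 0 (X j0 ^ 4 * nf x j0 t j * nf x j0 t i) := by
    intro i j
    rw [hu i j _ hB, hBx, one_smul]
  have hs : u 1 0 = u 0 1 := by
    rw [hu', hu']
    congr 1
    ring
  have hF : ∀ m : Fin 1, eval x (D.F m) = 0 := hS.h0
  have hnf : ∀ i, (nf x j0 t i).IsHomogeneous 1 := fun i => lf_hom1 x j0 _
  have hnf0 : ∀ i, eval x (nf x j0 t i) = 0 := by
    intro i
    unfold nf lf
    rw [map_sub, map_mul, eval_X, eval_X, eval_C, hx, mul_one, sub_self]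
  have hgu : ∀ i j, ∑ p, eval x (pderiv p (D.F 0)) * u i j p = 0 := by
    intro i j
    have h2 := Sharp.grad_VT D x hF (fun _ => X j0 ^ 4 * nf x j0 t j * nf x j0 t i)
      (fun _ => (hB.mul (hnf j)).mul (hnf i)) 0
    have e0 : eval x (X j0 ^ 4 * nf x j0 t j * nf x j0 t i) = 0 := by
      rw [map_mul, hnf0, mul_zero]
    rw [VT_one, e0, neg_zero, ← hu'] at h2
    exact h2
  have hju : ∀ i j, u i j j0 = 0 := by
    intro i j
    rw [hu']
    exact V_j0 hx _
  obtain ⟨ε⟩ : Nonempty ((Unit ⊕ (Fin 0 ⊕ Fin 3)) ⊕ Fin 1 ≃ Fin (4 + 1)) :=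
    ⟨Fintype.equivOfCardEq (by simp)⟩
  let η : Fin 0 → Fin (4 + 1) → K := fun c => c.elim0
  have hne : dt D x j0 ε η ![u 0 0, u 0 1, u 1 1] ≠ 0 := by
    refine dt_ne hx (hS.h0 0) ε η _ hli ?_ ?_
    · intro b
      fin_cases b
      · exact hju 0 0
      · exact hju 0 1
      · exact hju 1 1
    · intro b
      fin_cases b
      · exact hgu 0 0
      · exact hgu 0 1
      · exact hgu 1 1
  have h1 := S.s01 hx hne ((S.small_M.pow 4).mono fun p => size_dt loc hS ch van hu hs ε η p)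
  obtain ⟨i, hi⟩ := hS.xk
  exact hi (h1.2 i)

end Pool.Agent.T2.H6
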