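import Mathlib

/-!
# MP_c7af3c_ag, project T2, row BETA: the linear algebra
`v 0`, `v 1` : `S → U` (the maps `A ↦ V(n_i A)`), `b f i f'` : the derivative of `h_f` in the
direction `h_f' A` has the component `b f i f' A` at `n_i`.
-/

set_option autoImplicit false

namespace Pool.Agent.T2.H6

open Module

/-! ### kernels and ranks -/

section ranks

variable {K E X Y : Type} [Field K] [AddCommGroup E] [Module K E] [AddCommGroup X] [Module K X]
    [AddCommGroup Y] [Module K Y]

/-- the rank of a map which vanishes on the kernel of another one -/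
theorem rank_le [FiniteDimensional K X] (β : E →ₗ[K] X) (Ψ : E →ₗ[K] Y)
    (h : LinearMap.ker β ≤ LinearMap.ker Ψ) :
    finrank K (LinearMap.range Ψ) ≤ finrank K (LinearMap.range β) := by
  have e1 : (LinearMap.range Ψ) = (LinearMap.range ((LinearMap.ker β).liftQ Ψ h)) := by
    rw [Submodule.range_liftQ]
  have e2 := (LinearMap.quotKerEquivRange β).finrank_eq
  have hfd : FiniteDimensional K (E ⧸ LinearMap.ker β) :=
    Module.Finite.equiv (LinearMap.quotKerEquivRange β).symm
  rw [e1, ← e2]
  exact LinearMap.finrank_range_le _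

/-- the same, equality -/
theorem ker_eq [FiniteDimensional K X] (β : E →ₗ[K] X) (Ψ : E →ₗ[K] Y)
    (h : LinearMap.ker β ≤ LinearMap.ker Ψ)
    (hr : finrank K (LinearMap.range β) ≤ finrank K (LinearMap.range Ψ)) :
    LinearMap.ker Ψ ≤ LinearMap.ker β := by
  have hfd : FiniteDimensional K (E ⧸ LinearMap.ker β) :=
    Module.Finite.equiv (LinearMap.quotKerEquivRange β).symm
  set g := (LinearMap.ker β).liftQ Ψ h with hg
  have e1 : (LinearMap.range Ψ) = LinearMap.range g := by
    rw [hg, Submodule.range_liftQ]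
  have e2 := (LinearMap.quotKerEquivRange β).finrank_eq
  have e3 := LinearMap.finrank_range_add_finrank_ker g
  rw [e1] at hr
  have e4 : finrank K (LinearMap.ker g) = 0 := by omega
  have e5 : LinearMap.ker g = ⊥ := Submodule.finrank_eq_zero.1 e4
  intro A hA
  have e6 : (LinearMap.ker β).mkQ A ∈ LinearMap.ker g := by
    rw [LinearMap.mem_ker, hg, Submodule.mkQ_apply, Submodule.liftQ_apply]
    exact hA
  rw [e5, Submodule.mem_bot, Submodule.mkQ_apply, Submodule.Quotient.mk_eq_zero] at e6
  exact e6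

/-- the rank of a product map -/
theorem finrank_prodMap {E' Y' : Type} [AddCommGroup E'] [Module K E'] [AddCommGroup Y']
    [Module K Y'] (f : E →ₗ[K] Y) (g : E' →ₗ[K] Y') [FiniteDimensional K Y]
    [FiniteDimensional K Y'] : finrank K (LinearMap.range (f.prodMap g)) =
      finrank K (LinearMap.range f) + finrank K (LinearMap.range g) := by
  have hinj : Function.Injective
      ((LinearMap.range f).subtype.prodMap (LinearMap.range g).subtype) := by
    rintro ⟨a, b⟩ ⟨a', b'⟩ h
    simp only [LinearMap.prodMap_apply, Submodule.subtype_apply, Prod.mk.injEq,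
      SetLike.coe_eq_coe] at h
    rw [h.1, h.2]
  have h := LinearMap.finrank_range_of_inj hinj
  rw [LinearMap.range_prodMap, Submodule.range_subtype, Submodule.range_subtype,
    Module.finrank_prod] at h
  rw [LinearMap.range_prodMap, h]

end ranks

variable {K : Type} [Field K] {S U : Type} [AddCommGroup S] [Module K S] [AddCommGroup U]
  [Module K U]

/-- the combination `a 0 v 0 + a 1 v 1` -/
def cv (v : Fin 2 → S →ₗ[K] U) (a : Fin 2 → K) : S →ₗ[K] U := a 0 • v 0 + a 1 • v 1

theorem cv_apply (v : Fin 2 → S →ₗ[K] U) (a : Fin 2 → K) (A : S) :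
    cv v a A = a 0 • v 0 A + a 1 • v 1 A := rfl

/-- `β (A_0, A_1)` -/
def bet (b : Fin 2 → Fin 2 → Fin 2 → (S →ₗ[K] K)) : (S × S) →ₗ[K] (Fin 2 → Fin 2 → K) :=
  LinearMap.pi fun f => LinearMap.pi fun i => (b f i 0).coprod (b f i 1)

theorem bet_apply (b : Fin 2 → Fin 2 → Fin 2 → (S →ₗ[K] K)) (E : S × S) (f i : Fin 2) :
    bet b E f i = b f i 0 E.1 + b f i 1 E.2 := rfl

/-- `Φ φ (A_0, A_1)` -/
def Ph (v : Fin 2 → S →ₗ[K] U) (φ : Fin 2 → Fin 2 → K) : (S × S) →ₗ[K] U :=
  (cv v (φ 0)).coprod (cv v (φ 1))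

theorem Ph_apply (v : Fin 2 → S →ₗ[K] U) (φ : Fin 2 → Fin 2 → K) (E : S × S) :
    Ph v φ E = cv v (φ 0) E.1 + cv v (φ 1) E.2 := rfl

variable (v : Fin 2 → S →ₗ[K] U) (b : Fin 2 → Fin 2 → Fin 2 → (S →ₗ[K] K))

/-- the symmetry -/
def Sy : Prop := ∀ f f' A A', b f 0 f' A' • v 0 A + b f 1 f' A' • v 1 A =
  b f' 0 f A • v 0 A' + b f' 1 f A • v 1 A'

variable {v b}

theorem Ph_bet (hs : Sy v b) (E E' : S × S) :
    Ph v (bet b E') E = Ph v (bet b E) E' := by
  rw [Ph_apply, Ph_apply]
  simp only [cv_apply, bet_apply, add_smul]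
  have h00 := hs 0 0 E.1 E'.1
  have h01 := hs 0 1 E.1 E'.2
  have h10 := hs 1 0 E.2 E'.1
  have h11 := hs 1 1 E.2 E'.2
  linear_combination (norm := module) h00 + h01 + h10 + h11

theorem ker_Ph (hs : Sy v b) {φ : Fin 2 → Fin 2 → K} (hφ : φ ∈ LinearMap.range (bet b)) :
    LinearMap.ker (bet b) ≤ LinearMap.ker (Ph v φ) := by
  obtain ⟨E', rfl⟩ := hφ
  intro E hE
  rw [LinearMap.mem_ker] at hE ⊢
  rw [Ph_bet hs, hE, Ph_apply]
  simp [cv_apply]

/-- The alternative. -/
theorem beta_alg [FiniteDimensional K U] (hs : Sy v b)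
    (hL : ∀ a : Fin 2 → K, a ≠ 0 → 2 ≤ finrank K (LinearMap.range (cv v a))) :
    (∀ f i f' A, b f i f' A = 0) ∨
      finrank K (LinearMap.range ((v 0).prod (v 1))) ≤ 2 := by
  classical
  set β := bet b with hβ
  set r := finrank K (LinearMap.range β) with hr
  have hker : ∀ φ ∈ LinearMap.range β, LinearMap.ker β ≤ LinearMap.ker (Ph v φ) :=
    fun φ hφ => ker_Ph hs hφ
  -- the range of one component
  have hsub : ∀ φ : Fin 2 → Fin 2 → K, ∀ f, LinearMap.range (cv v (φ f)) ≤
      LinearMap.range (Ph v φ) := by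
    intro φ f
    rintro _ ⟨A, rfl⟩
    fin_cases f
    · exact ⟨(A, 0), by rw [Ph_apply]; simp⟩
    · exact ⟨(0, A), by rw [Ph_apply]; simp⟩
  have hrk : ∀ φ ∈ LinearMap.range β, φ ≠ 0 → 2 ≤ finrank K (LinearMap.range (Ph v φ)) := by
    intro φ _ h0
    obtain ⟨f, hf⟩ : ∃ f, φ f ≠ 0 := by
      by_contra h
      push Not at h
      exact h0 (funext h)
    exact (hL _ hf).trans (Submodule.finrank_mono (hsub φ f))
  by_cases hB : LinearMap.range β = ⊥
  · left
    intro f i f' A
    have h1 : β = 0 := LinearMap.range_eq_bot.1 hB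
    have h2 : ∀ f' : Fin 2, b f i f' A = 0 := by
      intro f'
      fin_cases f'
      · have := congrFun (congrFun (LinearMap.congr_fun h1 (A, 0)) f) i
        rw [hβ, bet_apply] at this
        simpa using this
      · have := congrFun (congrFun (LinearMap.congr_fun h1 (0, A)) f) i
        rw [hβ, bet_apply] at this
        simpa using this
    exact h2 f'
  right
  by_cases h3 : 3 ≤ r
  · -- the image contains elements with one component zero
    have hex : ∀ f : Fin 2, ∃ φ ∈ LinearMap.range β, φ ≠ 0 ∧ φ f = 0 := by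
      intro f
      let g : LinearMap.range β →ₗ[K] (Fin 2 → K) :=
        (LinearMap.proj f).comp (LinearMap.range β).subtype
      have h4 : LinearMap.ker g ≠ ⊥ := by
        apply LinearMap.ker_ne_bot_of_finrank_lt
        rw [Module.finrank_fin_fun]
        omega
      obtain ⟨φ, hφ, hφ0⟩ := (Submodule.ne_bot_iff _).1 h4
      refine ⟨φ.1, φ.2, ?_, LinearMap.mem_ker.1 hφ⟩
      intro h
      exact hφ0 (Subtype.ext h)
    obtain ⟨φ, hφ, hφ0, hφ1⟩ := hex 1
    obtain ⟨ψ, hψ, hψ0, hψ1⟩ := hex 0
    have hφ2 : φ 0 ≠ 0 := by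
      intro h
      apply hφ0
      funext f
      fin_cases f
      · exact h
      · exact hφ1
    have hψ2 : ψ 1 ≠ 0 := by
      intro h
      apply hψ0
      funext f
      fin_cases f
      · exact hψ1
      · exact h
    have h5 : LinearMap.ker β ≤ LinearMap.ker ((cv v (φ 0)).prodMap (cv v (ψ 1))) := by
      intro E hE
      have e1 := hker φ hφ hE
      have e2 := hker ψ hψ hE
      rw [LinearMap.mem_ker, Ph_apply] at e1 e2
      rw [hφ1] at e1
      rw [hψ1] at e2
      rw [LinearMap.mem_ker, LinearMap.prodMap_apply]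
      ext
      · simpa [cv_apply] using e1
      · simpa [cv_apply] using e2
    have h6 := rank_le β _ h5
    rw [finrank_prodMap] at h6
    have h7 := hL _ hφ2
    have h8 := hL _ hψ2
    have h9 : finrank K (Fin 2 → Fin 2 → K) = 4 := by
      rw [Module.finrank_pi_fintype]
      simp
    have h10 : LinearMap.range β = ⊤ := by
      apply Submodule.eq_top_of_finrank_eq
      have := Submodule.finrank_le (LinearMap.range β)
      omega
    have h11 : LinearMap.ker β ≤
        LinearMap.ker (((v 0).prod (v 1)).prodMap ((v 0).prod (v 1))) := by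
      intro E hE
      have key : ∀ φ : Fin 2 → Fin 2 → K, Ph v φ E = 0 := by
        intro φ
        have h12 : φ ∈ LinearMap.range β := by rw [h10]; trivial
        exact LinearMap.mem_ker.1 (hker φ h12 hE)
      have k0 := key (fun f i => if f = 0 ∧ i = 0 then 1 else 0)
      have k1 := key (fun f i => if f = 0 ∧ i = 1 then 1 else 0)
      have k2 := key (fun f i => if f = 1 ∧ i = 0 then 1 else 0)
      have k3 := key (fun f i => if f = 1 ∧ i = 1 then 1 else 0)
      rw [Ph_apply, cv_apply, cv_apply] at k0 k1 k2 k3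
      simp at k0 k1 k2 k3
      rw [LinearMap.mem_ker, LinearMap.prodMap_apply, LinearMap.prod_apply, LinearMap.prod_apply]
      simp [k0, k1, k2, k3]
    have h12 := rank_le β _ h11
    rw [finrank_prodMap] at h12
    have := Submodule.finrank_le (LinearMap.range β)
    omega
  · -- the rank is two
    push Not at h3
    obtain ⟨φ₀, hφ₀, hφ₀0⟩ := (Submodule.ne_bot_iff _).1 hB
    have h2r : 2 ≤ r := (hrk φ₀ hφ₀ hφ₀0).trans (rank_le β _ (hker φ₀ hφ₀))
    have hkeq : ∀ φ ∈ LinearMap.range β, φ ≠ 0 → LinearMap.ker (Ph v φ) ≤ LinearMap.ker β := by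
      intro φ hφ h0
      refine ker_eq β _ (hker φ hφ) ?_
      have := hrk φ hφ h0
      omega
    have hr2 : ∀ φ ∈ LinearMap.range β, finrank K (LinearMap.range (Ph v φ)) ≤ 2 := by
      intro φ hφ
      have := rank_le β _ (hker φ hφ)
      omega
    -- a component which is injective on the image is bijective
    have hmain : ∀ f : Fin 2, (∀ φ ∈ LinearMap.range β, φ f = 0 → φ = 0) →
        finrank K (LinearMap.range ((v 0).prod (v 1))) ≤ 2 := by
      intro f hf
      let g : LinearMap.range β →ₗ[K] (Fin 2 → K) :=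
        (LinearMap.proj f).comp (LinearMap.range β).subtype
      have hgi : Function.Injective g := by
        rw [← LinearMap.ker_eq_bot, LinearMap.ker_eq_bot']
        intro φ hφ
        exact Subtype.ext (hf φ.1 φ.2 hφ)
      have hgs : Function.Surjective g := by
        have e : finrank K (LinearMap.range β) = finrank K (Fin 2 → K) := by
          rw [Module.finrank_fin_fun]
          omega
        exact (LinearMap.injective_iff_surjective_of_finrank_eq_finrank e).1 hgi
      have hc : ∀ c : Fin 2 → K, c ≠ 0 → ∃ φ ∈ LinearMap.range β, φ ≠ 0 ∧ φ f = c := by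
        intro c hc
        obtain ⟨φ, hφ⟩ := hgs c
        refine ⟨φ.1, φ.2, ?_, hφ⟩
        intro h
        apply hc
        rw [← hφ]
        show φ.1 f = 0
        rw [h]; rfl
      -- the embedding of the component
      have hker2 : ∀ c : Fin 2 → K, c ≠ 0 → ∀ A : S, cv v c A = 0 →
          ∀ c' : Fin 2 → K, c' ≠ 0 → cv v c' A = 0 := by
        intro c hc0 A hA c' hc0'
        obtain ⟨φ, hφ, hφ0, rfl⟩ := hc c hc0
        obtain ⟨ψ, hψ, hψ0, rfl⟩ := hc c' hc0'
        have e1 : ((Pi.single f A : Fin 2 → S) 0, (Pi.single f A : Fin 2 → S) 1) ∈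
            LinearMap.ker (Ph v φ) := by
          rw [LinearMap.mem_ker, Ph_apply]
          fin_cases f
          · simpa using hA
          · simpa using hA
        have e2 := hker ψ hψ (hkeq φ hφ hφ0 e1)
        rw [LinearMap.mem_ker, Ph_apply] at e2
        fin_cases f
        · simpa using e2
        · simpa using e2
      have hv01 : LinearMap.ker (v 0) ≤ LinearMap.ker ((v 0).prod (v 1)) := by
        intro A hA
        rw [LinearMap.mem_ker] at hA ⊢
        have h1 := hker2 ![1, 0] (by simp) A (by simp [cv_apply, hA]) ![0, 1] (by simp)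
        rw [cv_apply] at h1
        simp only [Matrix.cons_val_zero, Matrix.cons_val_one, zero_smul, one_smul,
          zero_add] at h1
        rw [LinearMap.prod_apply]
        simp [hA, h1]
      have e3 := rank_le (v 0) _ hv01
      obtain ⟨φ, hφ, hφ0, hφc⟩ := hc ![1, 0] (by simp)
      have e4 : cv v ![1, 0] = v 0 := by
        ext A
        simp [cv_apply]
      have e5 := Submodule.finrank_mono (hsub φ f)
      rw [hφc, e4] at e5
      have e6 := hr2 φ hφ
      omega
    by_cases h0 : ∀ φ ∈ LinearMap.range β, φ 0 = 0 → φ = 0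
    · exact hmain 0 h0
    · push Not at h0
      obtain ⟨φ, hφ, hφ1, hφ2⟩ := h0
      have h4 : ∀ ψ ∈ LinearMap.range β, ψ 0 = 0 := by
        intro ψ hψ
        by_contra hne
        have h5 := hL _ hne
        have h6 : cv v (ψ 0) = 0 := by
          ext A
          have e1 : (A, (0 : S)) ∈ LinearMap.ker (Ph v φ) := by
            rw [LinearMap.mem_ker, Ph_apply, hφ1]
            simp [cv_apply]
          have e2 := hker ψ hψ (hkeq φ hφ hφ2 e1)
          rw [LinearMap.mem_ker, Ph_apply] at e2
          simpa using e2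
        rw [h6, LinearMap.range_zero, finrank_bot] at h5
        omega
      refine hmain 1 fun ψ hψ h1 => ?_
      funext f
      fin_cases f
      · exact h4 ψ hψ
      · exact h1

/-- the kernels of the combinations are the common kernel -/
theorem ker_cv [FiniteDimensional K U]
    (hL : ∀ a : Fin 2 → K, a ≠ 0 → 2 ≤ finrank K (LinearMap.range (cv v a)))
    (hW : finrank K (LinearMap.range ((v 0).prod (v 1))) ≤ 2) (a : Fin 2 → K) (ha : a ≠ 0)
    (A : S) (hA : cv v a A = 0) (i : Fin 2) : v i A = 0 := by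
  have h1 : LinearMap.ker ((v 0).prod (v 1)) ≤ LinearMap.ker (cv v a) := by
    intro A hA
    rw [LinearMap.mem_ker, LinearMap.prod_apply] at hA
    have h1 : v 0 A = 0 := congrArg Prod.fst hA
    have h2 : v 1 A = 0 := congrArg Prod.snd hA
    rw [LinearMap.mem_ker, cv_apply, h1, h2, smul_zero, smul_zero, add_zero]
  have h2 := ker_eq _ _ h1 (hW.trans (hL a ha)) hA
  rw [LinearMap.mem_ker, LinearMap.prod_apply] at h2
  fin_cases i
  · exact congrArg Prod.fst h2
  · exact congrArg Prod.snd h2

/-- The pencil: `A₀`, `A₁` is a basis modulo the common kernel. -/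
theorem pencil [FiniteDimensional K U]
    (hL : ∀ a : Fin 2 → K, a ≠ 0 → 2 ≤ finrank K (LinearMap.range (cv v a)))
    (hU : 3 ≤ finrank K (LinearMap.range (v 0) ⊔ LinearMap.range (v 1) : Submodule K U))
    (hW : finrank K (LinearMap.range ((v 0).prod (v 1))) ≤ 2) (A₀ A₁ : S)
    (h0 : v 0 A₁ = v 1 A₀) (hne : v 1 A₀ ≠ 0) :
    LinearIndependent K ![v 0 A₀, v 0 A₁, v 1 A₁] ∧
    (∀ i A, v i A ∈ Submodule.span K (Set.range ![v 0 A₀, v 0 A₁, v 1 A₁])) ∧
    ∀ B₀ B₁, v 0 B₁ = v 1 B₀ → ∃ c : K, ∀ i, v i B₁ = c • v i A₁ ∧ v i B₀ = c • v i A₀ := by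
  set W := (v 0).prod (v 1) with hWd
  have hWk : ∀ A, W A = 0 → ∀ i, v i A = 0 := by
    intro A hA i
    rw [hWd, LinearMap.prod_apply] at hA
    have h1 := congrArg Prod.fst hA
    have h2 := congrArg Prod.snd hA
    fin_cases i
    · exact h1
    · exact h2
  have hker : ∀ a : Fin 2 → K, a ≠ 0 → ∀ A, cv v a A = 0 → W A = 0 := by
    intro a ha A hA
    have h1 : LinearMap.ker W ≤ LinearMap.ker (cv v a) := by
      intro A hA
      have := hWk A hA
      rw [LinearMap.mem_ker, cv_apply, this 0, this 1, smul_zero, smul_zero, add_zero]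
    exact ker_eq W _ h1 (hW.trans (hL a ha)) hA
  have hind : LinearIndependent K ![W A₀, W A₁] := by
    rw [LinearIndependent.pair_iff]
    intro s t hst
    by_contra hcon
    have hc : (![s, t] : Fin 2 → K) ≠ 0 := by
      intro h
      apply hcon
      exact ⟨by simpa using congrFun h 0, by simpa using congrFun h 1⟩
    have h1 : W (s • A₀ + t • A₁) = 0 := by rw [map_add, map_smul, map_smul, hst]
    have h2 := hWk _ h1 0
    rw [map_add, map_smul, map_smul, h0] at h2
    have h3 : cv v ![s, t] A₀ = 0 := by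
      rw [cv_apply]
      simpa using h2
    exact hne (hWk _ (hker _ hc _ h3) 1)
  have hspan : LinearMap.range W = Submodule.span K (Set.range ![W A₀, W A₁]) := by
    symm
    apply Submodule.eq_of_le_of_finrank_le
    · rw [Submodule.span_le]
      rintro _ ⟨i, rfl⟩
      fin_cases i
      · exact ⟨A₀, rfl⟩
      · exact ⟨A₁, rfl⟩
    · rw [finrank_span_eq_card hind]
      exact hW
  have hdec : ∀ A, ∃ α β : K, ∀ i, v i A = α • v i A₀ + β • v i A₁ := by
    intro A
    have h1 : W A ∈ Submodule.span K (Set.range ![W A₀, W A₁]) := by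
      rw [← hspan]; exact ⟨A, rfl⟩
    rw [Matrix.range_cons, Matrix.range_cons, Matrix.range_empty, Set.union_empty,
      Set.singleton_union, Submodule.mem_span_pair] at h1
    obtain ⟨α, β, h⟩ := h1
    refine ⟨α, β, fun i => ?_⟩
    have h2 : W (A - (α • A₀ + β • A₁)) = 0 := by
      rw [map_sub, map_add, map_smul, map_smul, h, sub_self]
    have h3 := hWk _ h2 i
    rw [map_sub, map_add, map_smul, map_smul, sub_eq_zero] at h3
    exact h3
  have hm : ∀ i A, v i A ∈ Submodule.span K (Set.range ![v 0 A₀, v 0 A₁, v 1 A₁]) := by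
    have m0 : v 0 A₀ ∈ Submodule.span K (Set.range ![v 0 A₀, v 0 A₁, v 1 A₁]) :=
      Submodule.subset_span ⟨0, rfl⟩
    have m1 : v 0 A₁ ∈ Submodule.span K (Set.range ![v 0 A₀, v 0 A₁, v 1 A₁]) :=
      Submodule.subset_span ⟨1, rfl⟩
    have m2 : v 1 A₁ ∈ Submodule.span K (Set.range ![v 0 A₀, v 0 A₁, v 1 A₁]) :=
      Submodule.subset_span ⟨2, rfl⟩
    have m3 : v 1 A₀ ∈ Submodule.span K (Set.range ![v 0 A₀, v 0 A₁, v 1 A₁]) := h0 ▸ m1
    intro i A
    obtain ⟨α, β, h⟩ := hdec A
    rw [h i]
    fin_cases i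
    · exact Submodule.add_mem _ (Submodule.smul_mem _ _ m0) (Submodule.smul_mem _ _ m1)
    · exact Submodule.add_mem _ (Submodule.smul_mem _ _ m3) (Submodule.smul_mem _ _ m2)
  have hli : LinearIndependent K ![v 0 A₀, v 0 A₁, v 1 A₁] := by
    rw [linearIndependent_iff_card_le_finrank_span, Fintype.card_fin]
    refine hU.trans (Submodule.finrank_mono (sup_le ?_ ?_))
    · rintro _ ⟨A, rfl⟩
      exact hm 0 A
    · rintro _ ⟨A, rfl⟩
      exact hm 1 A
  refine ⟨hli, hm, ?_⟩
  intro B₀ B₁ hB
  obtain ⟨α, β, h1⟩ := hdec B₁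
  obtain ⟨γ, δ, h2⟩ := hdec B₀
  have h3 : α • v 0 A₀ + (β - γ) • v 0 A₁ + (-δ) • v 1 A₁ = 0 := by
    have e := hB
    rw [h1 0, h2 1, ← h0] at e
    linear_combination (norm := module) e
  have hli' := Fintype.linearIndependent_iff.1 hli ![α, β - γ, -δ] (by
    rw [Fin.sum_univ_three]
    simpa using h3)
  have e1 : α = 0 := by simpa using hli' 0
  have e2 : β - γ = 0 := by simpa using hli' 1
  have e3 : -δ = 0 := by simpa using hli' 2
  have e4 : γ = β := (sub_eq_zero.1 e2).symm
  have e5 : δ = 0 := neg_eq_zero.1 e3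
  refine ⟨β, fun i => ⟨?_, ?_⟩⟩
  · rw [h1 i, e1, zero_smul, zero_add]
  · rw [h2 i, e5, zero_smul, add_zero, e4]

end Pool.Agent.T2.H6
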