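import Pool.Agent.Lib.MP_c7af3c_ag.GEN.H26.Lin

/-!
# MP_c7af3c_ag, project T2: a form and its value under a linear substitution (helper6)
-/

set_option autoImplicit false

namespace Pool.Agent.T2.H6

open MvPolynomial

variable {K : Type} [Field K] {n : ℕ} (L : Fin (n + 1) → MvPolynomial (Fin (n + 1)) K)

/-- the span of the products `(X_k - L_k) B`, `B` a form of degree `e - 1` -/
noncomputable def II (e : ℕ) : Submodule K (MvPolynomial (Fin (n + 1)) K) :=
  Submodule.span K {P | ∃ (k : Fin (n + 1)) (B : MvPolynomial (Fin (n + 1)) K) (e' : ℕ),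
    e' + 1 = e ∧ B.IsHomogeneous e' ∧ P = (X k - L k) * B}

variable {L}

theorem II_mul {e : ℕ} {P : MvPolynomial (Fin (n + 1)) K} (hP : P ∈ II L e)
    {Z : MvPolynomial (Fin (n + 1)) K} (hZ : Z.IsHomogeneous 1) : Z * P ∈ II L (e + 1) := by
  unfold II at hP ⊢
  induction hP using Submodule.span_induction with
  | mem P hP =>
    obtain ⟨k, B, e', he, hB, rfl⟩ := hP
    refine Submodule.subset_span ⟨k, Z * B, e' + 1, by omega, ?_, by ring⟩
    have h1 := hZ.mul hB
    rwa [show 1 + e' = e' + 1 from by omega] at h1
  | zero => rw [mul_zero]; exact Submodule.zero_mem _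
  | add P Q _ _ h1 h2 => rw [mul_add]; exact Submodule.add_mem _ h1 h2
  | smul a P _ h1 => rw [mul_smul_comm]; exact Submodule.smul_mem _ _ h1

theorem mono_prod_hom (s : Multiset (Fin (n + 1))) :
    ((s.map X).prod : MvPolynomial (Fin (n + 1)) K).IsHomogeneous s.card := by
  induction s using Multiset.induction_on with
  | empty => simpa using isHomogeneous_one _ _
  | cons i s ih =>
    rw [Multiset.map_cons, Multiset.prod_cons, Multiset.card_cons,
      show s.card + 1 = 1 + s.card from by omega]
    exact (isHomogeneous_X K i).mul ih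

theorem sub_mono (hL : ∀ k, (L k).IsHomogeneous 1) (s : Multiset (Fin (n + 1))) :
    ((s.map X).prod : MvPolynomial (Fin (n + 1)) K) -
      aeval L ((s.map X).prod : MvPolynomial (Fin (n + 1)) K) ∈ II L s.card := by
  induction s using Multiset.induction_on with
  | empty => simp
  | cons i s ih =>
    rw [Multiset.map_cons, Multiset.prod_cons, Multiset.card_cons, map_mul, aeval_X]
    set Q : MvPolynomial (Fin (n + 1)) K := (s.map X).prod with hQ
    have e1 : X i * Q - L i * aeval L Q = (X i - L i) * Q + L i * (Q - aeval L Q) := by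
      ring
    rw [e1]
    refine Submodule.add_mem _ ?_ (II_mul ih (hL i))
    exact Submodule.subset_span ⟨i, _, _, rfl, mono_prod_hom s, rfl⟩

/-- a form minus its value under the substitution `X_k ↦ L_k` -/
theorem sub_hom (hL : ∀ k, (L k).IsHomogeneous 1) {e : ℕ} {G : MvPolynomial (Fin (n + 1)) K}
    (hG : G.IsHomogeneous e) : G - aeval L G ∈ II L e := by
  have h : G - aeval L G = ∑ I ∈ G.support, coeff I G •
      ((monomial I 1 : MvPolynomial (Fin (n + 1)) K) - aeval L (monomial I (1 : K))) := by
    conv_lhs => rw [G.as_sum, map_sum, ← Finset.sum_sub_distrib]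
    refine Finset.sum_congr rfl fun I _ => ?_
    have h1 : (monomial I (coeff I G) : MvPolynomial (Fin (n + 1)) K) =
        coeff I G • monomial I 1 := by rw [smul_monomial]; simp
    rw [h1, map_smul, smul_sub]
  rw [h]
  refine Submodule.sum_mem _ fun I hI => Submodule.smul_mem _ _ ?_
  have h2 : I.degree = e := by
    have := hG (mem_support_iff.1 hI)
    rw [← this, Finsupp.degree_eq_weight_one]
    rfl
  have hc : (Finsupp.toMultiset I).card = e := by
    rw [← Gen.H26.degree_toFinsupp, Finsupp.toMultiset_toFinsupp, h2]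
  have h3 := sub_mono hL (Finsupp.toMultiset I)
  rwa [Gen.H26.prod_map_X, Finsupp.toMultiset_toFinsupp, hc] at h3

/-- a property which is linear and holds for the products holds for all forms of zero value -/
theorem of_products (hL : ∀ k, (L k).IsHomogeneous 1) {e : ℕ} {Y : Type} [AddCommGroup Y]
    [Module K Y] (T : MvPolynomial (Fin (n + 1)) K →ₗ[K] Y) (N : Submodule K Y)
    (h : ∀ k B, B.IsHomogeneous e → T ((X k - L k) * B) ∈ N)
    {G : MvPolynomial (Fin (n + 1)) K} (hG : G.IsHomogeneous (e + 1)) (h0 : aeval L G = 0) :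
    T G ∈ N := by
  have h1 := sub_hom hL hG
  rw [h0, sub_zero] at h1
  have h2 : II L (e + 1) ≤ N.comap T := by
    unfold II
    rw [Submodule.span_le]
    rintro _ ⟨k, B, e', he, hB, rfl⟩
    obtain rfl : e' = e := by omega
    exact h k B hB
  exact h2 h1

end Pool.Agent.T2.H6
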