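import Pool.Agent.Lib.MP_c7af3c_ag.T2.Plane
import Pool.Agent.Lib.MP_c7af3c_ag.SHARP.H87.LineI
import Pool.Agent.Lib.MP_c7af3c_ag.T2.H6.BetaAlg
import Pool.Agent.Lib.MP_c7af3c_ag.T2.H6.Sub

/-!
# MP_c7af3c_ag, project T2, row BETA: the moving plane, first part (helper6)
`nf i` : the linear forms `X_(t (i+1)) - x_(t (i+1)) X_j0`; `vv i A = V(A nf_i)`.
-/

set_option autoImplicit false

namespace Pool.Agent.T2.H6

open MvPolynomial Module Pool.Agent.Gen Pool.Agent.Sharp Pool.Agent.Edge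

variable {K : Type} [Field K] {D : D6 K} {x : Fin (4 + 1) → K} {j0 : Fin (4 + 1)}
  {t : Fin (2 + 1) → Fin (4 + 1)} {P : Fin (2 + 1) → Fin (4 + 1) → K}

theorem V_j0 (hx : x j0 = 1) (G : MvPolynomial (Fin (4 + 1)) K) : D.V x 0 G j0 = 0 := by
  rw [D.V_apply]
  refine Finset.sum_eq_zero fun I _ => ?_
  rw [hx, Derivation.map_one_eq_zero, mul_zero]

/-- the linear forms -/
noncomputable def nf (x : Fin (4 + 1) → K) (j0 : Fin (4 + 1)) (t : Fin (2 + 1) → Fin (4 + 1))
    (i : Fin 2) : MvPolynomial (Fin (4 + 1)) K := lf x j0 (t i.succ)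

theorem lf_hom1 (x : Fin (4 + 1) → K) (j0 a : Fin (4 + 1)) : (lf x j0 a).IsHomogeneous 1 := by
  unfold lf
  have h := (isHomogeneous_C (Fin (4 + 1)) (x a)).mul (isHomogeneous_X K j0)
  rw [zero_add] at h
  exact (isHomogeneous_X K a).sub h

theorem lam_hom1 (t : Fin (2 + 1) → Fin (4 + 1)) (P : Fin (2 + 1) → Fin (4 + 1) → K)
    (f : Fin (4 + 1)) : (lam t P f).IsHomogeneous 1 := by
  unfold lam
  refine (isHomogeneous_X K f).sub (IsHomogeneous.sum _ _ _ fun i _ => ?_)
  have h := (isHomogeneous_C (Fin (4 + 1)) (P i f)).mul (isHomogeneous_X K (t i))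
  rwa [zero_add] at h

theorem lf_dec (hx : x j0 = 1) (ch : Cht x j0 t P) (a : Fin (4 + 1)) :
    lf x j0 a = lam t P a + ∑ i : Fin 2, C (P i.succ a) * nf x j0 t i := by
  unfold nf lf lam
  have h1 := ch.xP a
  rw [Fin.sum_univ_three, ch.t0, hx, mul_one] at h1
  rw [Fin.sum_univ_three, Fin.sum_univ_two, ch.t0, h1]
  simp only [Fin.succ_zero_eq_one, Fin.succ_one_eq_two, map_add, map_mul]
  ring

/-- the maps `A ↦ V(A nf_i)` on the quintic forms -/
noncomputable def vv (D : D6 K) (x : Fin (4 + 1) → K) (j0 : Fin (4 + 1))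
    (t : Fin (2 + 1) → Fin (4 + 1)) (i : Fin 2) :
    homogeneousSubmodule (Fin (4 + 1)) K 5 →ₗ[K] (Fin (4 + 1) → K) :=
  ((D.V x 0).comp (LinearMap.mulRight K (nf x j0 t i))).comp
    (homogeneousSubmodule (Fin (4 + 1)) K 5).subtype

theorem vv_apply (i : Fin 2) (A : homogeneousSubmodule (Fin (4 + 1)) K 5) :
    vv D x j0 t i A = D.V x 0 (A.1 * nf x j0 t i) := rfl

/-- the variation of the multiples of a linear form which vanishes at `x` -/
theorem V_lf (hx : x j0 = 1) (ch : Cht x j0 t P)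
    (van : ∀ A : MvPolynomial (Fin (4 + 1)) K, A.IsHomogeneous 5 → ∀ f,
      D.V x 0 (A * lam t P f) = 0)
    {A : MvPolynomial (Fin (4 + 1)) K} (hA : A.IsHomogeneous 5) (a : Fin (4 + 1)) :
    D.V x 0 (A * lf x j0 a) = P 1 a • D.V x 0 (A * nf x j0 t 0) +
      P 2 a • D.V x 0 (A * nf x j0 t 1) := by
  rw [lf_dec hx ch a, mul_add, map_add, van A hA a, zero_add, Fin.sum_univ_two, mul_add, map_add]
  have h : ∀ c (i : Fin 2), A * (C c * nf x j0 t i) = c • (A * nf x j0 t i) := by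
    intro c i
    rw [smul_eq_C_mul]
    ring
  rw [h, h, map_smul, map_smul]
  rfl

theorem aeval_pt [CharZero K] {G : MvPolynomial (Fin (4 + 1)) K} {e : ℕ}
    (hG : G.IsHomogeneous e) :
    aeval (fun k => C (x k) * X j0 : Fin (4 + 1) → MvPolynomial (Fin (4 + 1)) K) G =
      C (eval x G) * X j0 ^ e := by
  apply MvPolynomial.funext
  intro z
  have h1 : eval z (aeval (fun k => C (x k) * X j0 :
      Fin (4 + 1) → MvPolynomial (Fin (4 + 1)) K) G) = eval (fun k => z j0 * x k) G := by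
    rw [aeval_def, ← coe_eval₂Hom, ← RingHom.comp_apply, comp_eval₂Hom, coe_eval₂Hom]
    rw [eval, coe_eval₂Hom]
    have h2 : ((eval₂Hom (RingHom.id K) z).comp (algebraMap K (MvPolynomial (Fin (4 + 1)) K))) =
        RingHom.id K := by
      ext a
      simp
    have h3 : (fun i => (eval₂Hom (RingHom.id K) z) (C (x i) * X j0)) =
        (fun k => z j0 * x k) := by
      funext k
      simp only [map_mul, coe_eval₂Hom, eval₂_X, eval₂_C, RingHom.id_apply]
      ring
    simp only [coe_eval₂Hom] at h3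
    rw [h2, h3]
    rfl
  rw [h1, H54.eval_smul_form hG, map_mul, eval_C, map_pow, eval_X]
  ring

/-- a linear statement on the forms which vanish at `x` -/
theorem of_pt [CharZero K] {e : ℕ} {Y : Type} [AddCommGroup Y] [Module K Y]
    (T : MvPolynomial (Fin (4 + 1)) K →ₗ[K] Y) (N : Submodule K Y)
    (h : ∀ k B, B.IsHomogeneous e → T (B * lf x j0 k) ∈ N)
    {G : MvPolynomial (Fin (4 + 1)) K} (hG : G.IsHomogeneous (e + 1)) (h0 : eval x G = 0) :
    T G ∈ N := by
  refine of_products (L := fun k => C (x k) * X j0) ?_ T N ?_ hG ?_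
  · intro k
    have h := (isHomogeneous_C (Fin (4 + 1)) (x k)).mul (isHomogeneous_X K j0)
    rwa [zero_add] at h
  · intro k B hB
    rw [mul_comm]
    exact h k B hB
  · rw [aeval_pt hG, h0, C_0, zero_mul]

theorem V_zero_mem [CharZero K] (hx : x j0 = 1) (ch : Cht x j0 t P)
    (van : ∀ A : MvPolynomial (Fin (4 + 1)) K, A.IsHomogeneous 5 → ∀ f,
      D.V x 0 (A * lam t P f) = 0)
    {G : MvPolynomial (Fin (4 + 1)) K} (hG : G.IsHomogeneous 6) (h0 : eval x G = 0) :
    D.V x 0 G ∈ LinearMap.range (vv D x j0 t 0) ⊔ LinearMap.range (vv D x j0 t 1) := by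
  refine of_pt (j0 := j0) (e := 5) (D.V x 0) _ (fun k B hB => ?_) hG h0
  rw [V_lf hx ch van hB]
  refine Submodule.add_mem_sup (Submodule.smul_mem _ _ ?_) (Submodule.smul_mem _ _ ?_)
  · exact ⟨⟨B, hB⟩, rfl⟩
  · exact ⟨⟨B, hB⟩, rfl⟩

theorem VT_one (G : Fin 1 → MvPolynomial (Fin (4 + 1)) K) : Sharp.VT D x G = D.V x 0 (G 0) := by
  rw [Sharp.VT_apply, Fin.sum_univ_one]

theorem rank_U [CharZero K] (hx : x j0 = 1) (ch : Cht x j0 t P) (w0 : W0 D x)
    (van : ∀ A : MvPolynomial (Fin (4 + 1)) K, A.IsHomogeneous 5 → ∀ f,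
      D.V x 0 (A * lam t P f) = 0) :
    3 ≤ finrank K (LinearMap.range (vv D x j0 t 0) ⊔ LinearMap.range (vv D x j0 t 1) :
      Submodule K (Fin (4 + 1) → K)) := by
  classical
  set N := LinearMap.range (vv D x j0 t 0) ⊔ LinearMap.range (vv D x j0 t 1) with hN
  set V0 := D.V x 0 (X j0 ^ 6) with hV0
  have hV : ∀ G : MvPolynomial (Fin (4 + 1)) K, G.IsHomogeneous 6 →
      D.V x 0 G ∈ Submodule.span K {V0} ⊔ N := by
    intro G hG
    have e1 : G = (eval x G) • X j0 ^ 6 + (G - C (eval x G) * X j0 ^ 6) := by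
      rw [smul_eq_C_mul]
      ring
    have h6 : (C (eval x G) * X j0 ^ 6 : MvPolynomial (Fin (4 + 1)) K).IsHomogeneous 6 := by
      have h := (isHomogeneous_C (Fin (4 + 1)) (eval x G)).mul (isHomogeneous_X_pow j0 6)
      rwa [zero_add] at h
    have h2 : D.V x 0 (G - C (eval x G) * X j0 ^ 6) ∈ N :=
      V_zero_mem hx ch van (hG.sub h6) (by
        rw [map_sub, map_mul, eval_C, map_pow, eval_X, hx]
        ring)
    rw [e1, map_add, map_smul]
    exact Submodule.add_mem_sup (Submodule.smul_mem _ _ (Submodule.mem_span_singleton_self _)) h2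
  have htop : (⊤ : Submodule K (Fin (4 + 1) → K)) ≤
      Submodule.span K {x} ⊔ (Submodule.span K {V0} ⊔ N) := by
    have hs : ∀ p, (Pi.single p 1 : Fin (4 + 1) → K) ∈
        Submodule.span K {x} ⊔ (Submodule.span K {V0} ⊔ N) := by
      intro p
      have h1 := w0 p j0
      unfold Sharp.WT at h1
      rw [VT_one, hx, one_smul] at h1
      have h2 : (X j0 * pderiv p (D.F 0) : MvPolynomial (Fin (4 + 1)) K).IsHomogeneous 6 := by
        have h := (isHomogeneous_X K j0).mul ((D.hom 0).pderiv (i := p))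
        exact h
      have h3 : (Pi.single p 1 : Fin (4 + 1) → K) =
          (Pi.single p 1 + D.V x 0 (X j0 * pderiv p (D.F 0))) +
            (-(D.V x 0 (X j0 * pderiv p (D.F 0)))) := by
        abel
      rw [h3]
      exact Submodule.add_mem_sup h1 (Submodule.neg_mem _ (hV _ h2))
    intro u _
    have h4 : u = ∑ p, u p • (Pi.single p 1 : Fin (4 + 1) → K) := by
      funext q
      rw [Finset.sum_apply]
      simp [Pi.single_apply]
    rw [h4]
    exact Submodule.sum_mem _ fun p _ => Submodule.smul_mem _ _ (hs p)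
  have h5 := Submodule.finrank_mono htop
  rw [finrank_top, Module.finrank_fin_fun] at h5
  have h6 := Submodule.finrank_add_le_finrank_add_finrank (Submodule.span K {x})
    (Submodule.span K {V0} ⊔ N)
  have h7 := Submodule.finrank_add_le_finrank_add_finrank (Submodule.span K {V0}) N
  have h8 : finrank K (Submodule.span K {x}) ≤ 1 := le_trans (finrank_span_le_card {x}) (by simp)
  have h9 : finrank K (Submodule.span K {V0}) ≤ 1 := le_trans (finrank_span_le_card {V0}) (by simp)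
  omega

/-- The degenerate case: the variation of the multiples of `nf_i nf_j`. -/
theorem kron [CharZero K] (hx : x j0 = 1) (ch : Cht x j0 t P) (w0 : W0 D x)
    (van : ∀ A : MvPolynomial (Fin (4 + 1)) K, A.IsHomogeneous 5 → ∀ f,
      D.V x 0 (A * lam t P f) = 0)
    (hL : ∀ a : Fin 2 → K, a ≠ 0 → 2 ≤ finrank K (LinearMap.range (cv (vv D x j0 t) a)))
    (hW : finrank K (LinearMap.range ((vv D x j0 t 0).prod (vv D x j0 t 1))) ≤ 2) :
    ∃ u : Fin 2 → Fin 2 → Fin (4 + 1) → K, LinearIndependent K ![u 0 0, u 0 1, u 1 1] ∧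
      ∀ i j (B : MvPolynomial (Fin (4 + 1)) K), B.IsHomogeneous 4 →
        D.V x 0 (B * nf x j0 t j * nf x j0 t i) = eval x B • u i j := by
  classical
  have hU := rank_U hx ch w0 van
  have hnf : ∀ i, (nf x j0 t i).IsHomogeneous 1 := fun i => lf_hom1 x j0 _
  -- the quintic forms `B nf_j`
  let b : Fin 2 → (B : MvPolynomial (Fin (4 + 1)) K) → B.IsHomogeneous 4 →
      homogeneousSubmodule (Fin (4 + 1)) K 5 := fun j B hB => ⟨B * nf x j0 t j, hB.mul (hnf j)⟩
  have hb : ∀ i j B hB, vv D x j0 t i (b j B hB) = D.V x 0 (B * nf x j0 t j * nf x j0 t i) :=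
    fun i j B hB => rfl
  have hsym : ∀ B hB, vv D x j0 t 0 (b 1 B hB) = vv D x j0 t 1 (b 0 B hB) := by
    intro B hB
    rw [hb 0 1 B hB, hb 1 0 B hB]
    congr 1
    ring
  -- a quartic form
  obtain ⟨B₀, hB₀, hne⟩ : ∃ B hB, vv D x j0 t 1 (b 0 B hB) ≠ 0 := by
    by_contra hcon
    push Not at hcon
    have hz : ∀ B hB i j, vv D x j0 t i (b j B hB) = 0 := by
      intro B hB i j
      fin_cases j
      · refine ker_cv hL hW ![0, 1] (by simp) _ ?_ i
        rw [cv_apply]
        simpa using hcon B hB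
      · refine ker_cv hL hW ![1, 0] (by simp) _ ?_ i
        rw [cv_apply]
        simpa using (hsym B hB).trans (hcon B hB)
    have h1 : ∀ A : MvPolynomial (Fin (4 + 1)) K, A.IsHomogeneous 5 → eval x A = 0 →
        D.V x 0 (A * nf x j0 t 0) = 0 := by
      intro A hA h0
      have := of_pt (j0 := j0) (e := 4) ((D.V x 0).comp (LinearMap.mulRight K (nf x j0 t 0))) ⊥
        (fun k B hB => ?_) hA h0
      · exact this
      · rw [Submodule.mem_bot]
        show D.V x 0 (B * lf x j0 k * nf x j0 t 0) = 0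
        have e : B * lf x j0 k * nf x j0 t 0 = (B * nf x j0 t 0) * lf x j0 k := by ring
        rw [e, V_lf hx ch van (hB.mul (hnf 0))]
        have e0 := hz B hB 0 0
        have e1 := hz B hB 1 0
        rw [hb 0 0 B hB] at e0
        rw [hb 1 0 B hB] at e1
        rw [e0, e1, smul_zero, smul_zero, add_zero]
    have h2 : LinearMap.range (vv D x j0 t 0) ≤
        Submodule.span K {D.V x 0 (X j0 ^ 5 * nf x j0 t 0)} := by
      rintro _ ⟨A, rfl⟩
      have h5 : (C (eval x A.1) * X j0 ^ 5 : MvPolynomial (Fin (4 + 1)) K).IsHomogeneous 5 := by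
        have h := (isHomogeneous_C (Fin (4 + 1)) (eval x A.1)).mul (isHomogeneous_X_pow j0 5)
        rwa [zero_add] at h
      have h3 := h1 (A.1 - C (eval x A.1) * X j0 ^ 5) (A.2.sub h5) (by
        rw [map_sub, map_mul, eval_C, map_pow, eval_X, hx]
        ring)
      rw [vv_apply, Submodule.mem_span_singleton]
      refine ⟨eval x A.1, ?_⟩
      have e : A.1 * nf x j0 t 0 = (A.1 - C (eval x A.1) * X j0 ^ 5) * nf x j0 t 0 +
          (eval x A.1) • (X j0 ^ 5 * nf x j0 t 0) := by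
        rw [smul_eq_C_mul]
        ring
      rw [e, map_add, h3, zero_add, map_smul]
    have h3 := hL ![1, 0] (by simp)
    have h4 : cv (vv D x j0 t) ![1, 0] = vv D x j0 t 0 := by
      refine LinearMap.ext fun A => ?_
      simp [cv_apply]
    rw [h4] at h3
    have h5 := h3.trans (Submodule.finrank_mono h2)
    have h6 : finrank K (Submodule.span K {D.V x 0 (X j0 ^ 5 * nf x j0 t 0)}) ≤ 1 :=
      le_trans (finrank_span_le_card {D.V x 0 (X j0 ^ 5 * nf x j0 t 0)}) (by simp)
    omega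
  obtain ⟨hli, -, hc⟩ := pencil hL hU hW (b 0 B₀ hB₀) (b 1 B₀ hB₀) (hsym B₀ hB₀) hne
  -- products of three forms
  have h3 : ∀ (C' : MvPolynomial (Fin (4 + 1)) K) (_ : C'.IsHomogeneous 3) (i j k : Fin 2),
      D.V x 0 (C' * nf x j0 t k * nf x j0 t j * nf x j0 t i) = 0 := by
    intro C' hC
    have hCk : ∀ k, (C' * nf x j0 t k).IsHomogeneous 4 := fun k => hC.mul (hnf k)
    obtain ⟨c0, hc0⟩ := hc (b 0 _ (hCk 0)) (b 1 _ (hCk 0)) (hsym _ (hCk 0))
    obtain ⟨c1, hc1⟩ := hc (b 0 _ (hCk 1)) (b 1 _ (hCk 1)) (hsym _ (hCk 1))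
    have e : vv D x j0 t 0 (b 1 _ (hCk 0)) = vv D x j0 t 0 (b 0 _ (hCk 1)) := by
      rw [hb 0 1 _ (hCk 0), hb 0 0 _ (hCk 1)]
      congr 1
      ring
    rw [(hc0 0).1, (hc1 0).2] at e
    have hli' := Fintype.linearIndependent_iff.1 hli ![-c1, c0, 0] (by
      rw [Fin.sum_univ_three]
      simp only [Matrix.cons_val_zero, Matrix.cons_val_one, Matrix.cons_val_two,
        Matrix.tail_cons, Matrix.head_cons, zero_smul, add_zero]
      rw [e, neg_smul, neg_add_cancel])
    have z0 : c0 = 0 := by simpa using hli' 1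
    have z1 : c1 = 0 := by simpa using hli' 0
    intro i j k
    have hz : ∀ i j k, vv D x j0 t i (b j _ (hCk k)) = 0 := by
      intro i j k
      fin_cases k <;> fin_cases j
      · exact ((hc0 i).2).trans (by rw [z0, zero_smul])
      · exact ((hc0 i).1).trans (by rw [z0, zero_smul])
      · exact ((hc1 i).2).trans (by rw [z1, zero_smul])
      · exact ((hc1 i).1).trans (by rw [z1, zero_smul])
    exact hz i j k
  have h4 : ∀ (B : MvPolynomial (Fin (4 + 1)) K) (_ : B.IsHomogeneous 4) (_ : eval x B = 0)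
      (i j : Fin 2), D.V x 0 (B * nf x j0 t j * nf x j0 t i) = 0 := by
    intro B hB h0 i j
    have := of_pt (j0 := j0) (e := 3) ((D.V x 0).comp
      (LinearMap.mulRight K (nf x j0 t j * nf x j0 t i))) ⊥ (fun k C' hC => ?_) hB h0
    · rw [mul_assoc]
      exact this
    · rw [Submodule.mem_bot]
      show D.V x 0 (C' * lf x j0 k * (nf x j0 t j * nf x j0 t i)) = 0
      have e : C' * lf x j0 k * (nf x j0 t j * nf x j0 t i) =
          (C' * nf x j0 t j * nf x j0 t i) * lf x j0 k := by ring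
      rw [e, V_lf hx ch van ((hC.mul (hnf j)).mul (hnf i)), h3 C' hC 0 i j, h3 C' hC 1 i j,
        smul_zero, smul_zero, add_zero]
  let u : Fin 2 → Fin 2 → Fin (4 + 1) → K := fun i j =>
    D.V x 0 (X j0 ^ 4 * nf x j0 t j * nf x j0 t i)
  have h5 : ∀ i j (B : MvPolynomial (Fin (4 + 1)) K), B.IsHomogeneous 4 →
      D.V x 0 (B * nf x j0 t j * nf x j0 t i) = eval x B • u i j := by
    intro i j B hB
    have h6 : (C (eval x B) * X j0 ^ 4 : MvPolynomial (Fin (4 + 1)) K).IsHomogeneous 4 := by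
      have h := (isHomogeneous_C (Fin (4 + 1)) (eval x B)).mul (isHomogeneous_X_pow j0 4)
      rwa [zero_add] at h
    have h7 := h4 (B - C (eval x B) * X j0 ^ 4) (hB.sub h6) (by
      rw [map_sub, map_mul, eval_C, map_pow, eval_X, hx]
      ring) i j
    have e : B * nf x j0 t j * nf x j0 t i =
        (B - C (eval x B) * X j0 ^ 4) * nf x j0 t j * nf x j0 t i +
        (eval x B) • (X j0 ^ 4 * nf x j0 t j * nf x j0 t i) := by
      rw [smul_eq_C_mul]
      ring
    rw [e, map_add, h7, zero_add, map_smul]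
  refine ⟨u, ?_, h5⟩
  rw [Fintype.linearIndependent_iff]
  intro g hg
  have hli' := Fintype.linearIndependent_iff.1 hli g (by
    have e : ∀ k, (![vv D x j0 t 0 (b 0 B₀ hB₀), vv D x j0 t 0 (b 1 B₀ hB₀),
        vv D x j0 t 1 (b 1 B₀ hB₀)] : Fin 3 → Fin (4 + 1) → K) k =
        eval x B₀ • (![u 0 0, u 0 1, u 1 1] : Fin 3 → Fin (4 + 1) → K) k := by
      intro k
      fin_cases k
      · exact h5 0 0 B₀ hB₀
      · exact h5 0 1 B₀ hB₀
      · exact h5 1 1 B₀ hB₀
    simp only [e, smul_comm (g _) (eval x B₀)]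
    rw [← Finset.smul_sum, hg, smul_zero])
  exact hli'

end Pool.Agent.T2.H6
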